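import Pool.Agent.Q154.NS.Num

/-! Decompositions of the numerical motive and the sign conjecture. -/

set_option autoImplicit false
set_option linter.unusedSectionVars false
set_option linter.unusedSimpArgs false
set_option linter.unusedVariables false
set_option backward.isDefEq.respectTransparency false
set_option backward.defeqAttrib.useBackward true

open CategoryTheory Limits MonoidalCategory
open Pool.Agent.Y112.SR Pool.Agent.Q259.NCSign

namespace Pool.Agent.Q154.NS

universe v u w w'

/-- orthogonal idempotents with sum one -/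
structure OI {A : Type*} [Ring A] {n : ℕ} (E : Fin n → A) : Prop where
  orth : ∀ i j, i ≠ j → E i * E j = 0
  idem : ∀ i, E i * E i = E i
  sum : ∑ i, E i = 1

lemma OI.sub_idem {A : Type*} [Ring A] {n : ℕ} {E : Fin n → A} (h : OI E) (s : Finset (Fin n)) :
    (∑ i ∈ s, E i) * (∑ i ∈ s, E i) = ∑ i ∈ s, E i := by
  rw [Finset.sum_mul_sum]
  refine Finset.sum_congr rfl fun i hi => ?_
  rw [Finset.sum_eq_single i, h.idem]
  · intro j _ hj
    exact h.orth i j hj.symm
  · intro hi'
    exact absurd hi hi'

lemma OI.refine {A : Type*} [Ring A] {n : ℕ} {E : Fin n → A} (h : OI E) (i : Fin n) {Z : A}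
    (hZ : Z * Z = Z) (hEZ : E i * Z * E i = Z) :
    OI (Fin.cons Z (Function.update E i (E i - Z)) : Fin (n + 1) → A) := by
  have h1 : E i * Z = Z := by rw [← hEZ, ← mul_assoc, ← mul_assoc, h.idem]
  have h2 : Z * E i = Z := by rw [← hEZ, mul_assoc, h.idem]
  have h3 : ∀ j, j ≠ i → Z * E j = 0 := by
    intro j hj
    rw [← h2, mul_assoc, h.orth i j hj.symm, mul_zero]
  have h4 : ∀ j, j ≠ i → E j * Z = 0 := by
    intro j hj
    rw [← h1, ← mul_assoc, h.orth j i hj, zero_mul]
  refine ⟨?_, ?_, ?_⟩
  · intro a b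
    refine Fin.cases ?_ (fun a' => ?_) a
    · refine Fin.cases ?_ (fun b' => ?_) b
      · intro hab
        exact absurd rfl hab
      · intro _
        rw [Fin.cons_zero, Fin.cons_succ]
        by_cases hb : b' = i
        · subst hb
          rw [Function.update_self, mul_sub, h2, hZ, sub_self]
        · rw [Function.update_of_ne hb]
          exact h3 b' hb
    · refine Fin.cases ?_ (fun b' => ?_) b
      · intro _
        rw [Fin.cons_zero, Fin.cons_succ]
        by_cases ha : a' = i
        · subst ha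
          rw [Function.update_self, sub_mul, h1, hZ, sub_self]
        · rw [Function.update_of_ne ha]
          exact h4 a' ha
      · intro hab
        have hab' : a' ≠ b' := fun h => hab (by rw [h])
        rw [Fin.cons_succ, Fin.cons_succ]
        by_cases ha : a' = i
        · subst ha
          rw [Function.update_self, Function.update_of_ne hab'.symm, sub_mul, h.orth _ _ hab',
            h3 _ hab'.symm, sub_zero]
        · rw [Function.update_of_ne ha]
          by_cases hb : b' = i
          · subst hb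
            rw [Function.update_self, mul_sub, h.orth _ _ hab', h4 _ hab', sub_zero]
          · rw [Function.update_of_ne hb]
            exact h.orth _ _ hab'
  · intro a
    refine Fin.cases ?_ (fun a' => ?_) a
    · rw [Fin.cons_zero, hZ]
    · rw [Fin.cons_succ]
      by_cases ha : a' = i
      · subst ha
        rw [Function.update_self, mul_sub, sub_mul, sub_mul, h.idem, h1, h2, hZ, sub_self,
          sub_zero]
      · rw [Function.update_of_ne ha]
        exact h.idem a'
  · rw [Fin.sum_univ_succ, Fin.cons_zero]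
    simp only [Fin.cons_succ]
    rw [Finset.sum_update_of_mem (Finset.mem_univ i)]
    have h5 := h.sum
    rw [← Finset.add_sum_erase _ _ (Finset.mem_univ i)] at h5
    rw [← h5, Finset.sdiff_singleton_eq_erase]
    abel

lemma abs_sum_split {n : ℕ} (χ : Fin n → ℤ) : ∃ s : Finset (Fin n),
    ∑ i, |χ i| = ∑ i ∈ s, χ i - ∑ i ∈ sᶜ, χ i := by
  classical
  refine ⟨Finset.univ.filter fun i => 0 ≤ χ i, ?_⟩
  rw [← Finset.sum_add_sum_compl (Finset.univ.filter fun i => 0 ≤ χ i) (fun i => |χ i|),
    sub_eq_add_neg, ← Finset.sum_neg_distrib]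
  congr 1
  · refine Finset.sum_congr rfl fun i hi => ?_
    rw [Finset.mem_filter] at hi
    exact abs_of_nonneg hi.2
  · refine Finset.sum_congr rfl fun i hi => ?_
    rw [Finset.mem_compl, Finset.mem_filter] at hi
    push Not at hi
    exact abs_of_neg (hi (Finset.mem_univ i))

section

variable {C : Type u} [Category.{v} C] [Preadditive C] [Linear ℚ C] [MonoidalCategory C]
  [SymmetricCategory C] [RightRigidCategory C] {K : Type w} [Field K] (R : SuperRealisation C K)

lemma sum_comp_cls (hunit : ∀ c : 𝟙_ C ⟶ 𝟙_ C, ∃ q : ℚ, c = q • 𝟙 _) {M : C} {ι : Type*}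
    (s : Finset ι) (e : ι → (M ⟶ M)) :
    cls R hunit M (show End M from ∑ i ∈ s, e i) =
      ∑ i ∈ s, cls R hunit M (show End M from e i) := by
  have : (show End M from ∑ i ∈ s, e i) = ∑ i ∈ s, (show End M from e i) := rfl
  rw [this, map_sum]

variable (hunit : ∀ c : 𝟙_ C ⟶ 𝟙_ C, ∃ q : ℚ, c = q • 𝟙 _)
include hunit

lemma oi_of_dec {M : C} {n : ℕ} {e : Fin n → (M ⟶ M)} (h : NumDecomp M e) :
    OI (fun i => cls R hunit M (show End M from e i)) := by
  refine ⟨?_, ?_, ?_⟩
  · intro i j hij
    change cls R hunit M _ * cls R hunit M _ = 0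
    rw [← map_mul, cls_zero_iff]
    exact h.orth j i hij.symm
  · intro i
    change cls R hunit M _ * cls R hunit M _ = cls R hunit M _
    rw [← map_mul, cls_eq_iff]
    exact h.idem i
  · rw [← sum_comp_cls, ← map_one (cls R hunit M), cls_eq_iff]
    exact h.sum

lemma dec_of_oi {M : C} {n : ℕ} {e : Fin n → (M ⟶ M)}
    (h : OI (fun i => cls R hunit M (show End M from e i))) : NumDecomp M e := by
  refine ⟨?_, ?_, ?_⟩
  · intro i j hij
    have h1 := h.orth j i hij.symm
    change cls R hunit M _ * cls R hunit M _ = 0 at h1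
    rw [← map_mul, cls_zero_iff] at h1
    exact h1
  · intro i
    have h1 := h.idem i
    change cls R hunit M _ * cls R hunit M _ = cls R hunit M _ at h1
    rw [← map_mul, cls_eq_iff] at h1
    exact h1
  · have h1 := h.sum
    rw [← sum_comp_cls, ← map_one (cls R hunit M), cls_eq_iff] at h1
    exact h1

/-- The supertrace of an idempotent modulo numerical equivalence. -/
lemma idem_str {M : C} {z : End M}
    (h : cls R hunit M z * cls R hunit M z = cls R hunit M z) :
    ∃ m n : ℕ, str R (show M ⟶ M from z) = (m : K) - n ∧ m ≤ evd R M ∧ n ≤ odd R M ∧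
      (opHom R M z * ((2 : K)⁻¹ • (1 - sgn R M)) = 0 → n = 0) ∧
      (opHom R M z * ((2 : K)⁻¹ • (1 + sgn R M)) = 0 → m = 0) := by
  apply const_str R
  intro m hm
  apply str_congr R hunit
  rw [map_pow]
  obtain ⟨k, rfl⟩ : ∃ k, m = k + 1 := ⟨m - 1, by omega⟩
  exact IsIdempotentElem.pow_succ_eq k h

lemma cplus_of_idem {M : C} {z : End M}
    (h : cls R hunit M z * cls R hunit M z = cls R hunit M z)
    (h' : str R (show M ⟶ M from z) = (evd R M : K)) : R.CPlus M := by
  apply cplus_of_str R hunit (z := z)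
  intro m hm
  rw [← h']
  apply str_congr R hunit
  rw [map_pow]
  obtain ⟨k, rfl⟩ : ∃ k, m = k + 1 := ⟨m - 1, by omega⟩
  exact IsIdempotentElem.pow_succ_eq k h

/-- Upper bound and the sign conjecture in the case of equality. -/
lemma dec_upper {M : C} {n : ℕ} {e : Fin n → (M ⟶ M)} (h : NumDecomp M e) :
    ∃ χ : Fin n → ℤ, (∀ i, ctr (e i) = (χ i : ℚ) • 𝟙 _) ∧
      (∀ s : Finset (Fin n), ∑ i ∈ s, χ i ≤ (evd R M : ℤ) ∧ -(odd R M : ℤ) ≤ ∑ i ∈ s, χ i ∧
        (∑ i ∈ s, χ i = (evd R M : ℤ) → R.CPlus M)) := by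
  have hK := R_charZero R
  have hoi := oi_of_dec R hunit h
  have h1 : ∀ i, ∃ t : ℤ, str R (e i) = (t : K) := by
    intro i
    obtain ⟨m, k, h2, -⟩ := idem_str R hunit (hoi.idem i)
    refine ⟨(m : ℤ) - k, ?_⟩
    push_cast
    exact h2
  choose χ hχ using h1
  refine ⟨χ, ?_, ?_⟩
  · intro i
    rw [ctr_eq_iff R hunit, hχ]
    push_cast
    rfl
  · intro s
    have h3 := hoi.sub_idem s
    rw [← sum_comp_cls] at h3
    obtain ⟨m, k, h4, h5, h6, -⟩ := idem_str R hunit h3
    have h7 : str R (∑ i ∈ s, e i) = ((∑ i ∈ s, χ i : ℤ) : K) := by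
      rw [str_sum]
      push_cast
      exact Finset.sum_congr rfl fun i _ => hχ i
    have h8 : (∑ i ∈ s, χ i : ℤ) = (m : ℤ) - k := by
      have h9 : ((∑ i ∈ s, χ i : ℤ) : K) = (((m : ℤ) - k : ℤ) : K) := by
        rw [← h7]
        push_cast
        exact h4
      exact_mod_cast h9
    refine ⟨by omega, by omega, ?_⟩
    intro h10
    refine cplus_of_idem R hunit h3 ?_
    change str R (∑ i ∈ s, e i) = _
    rw [h7, h10]
    push_cast
    rfl

/-- **The upper bound.** -/
theorem dec_abs {M : C} {n : ℕ} {e : Fin n → (M ⟶ M)} (h : NumDecomp M e) :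
    ∃ χ : Fin n → ℤ, (∀ i, ctr (e i) = (χ i : ℚ) • 𝟙 _) ∧
      ∑ i, |χ i| ≤ (Module.finrank K (R.H.obj M) : ℤ) ∧
      (∑ i, |χ i| = (Module.finrank K (R.H.obj M) : ℤ) → R.CPlus M) := by
  obtain ⟨χ, h1, h2⟩ := dec_upper R hunit h
  obtain ⟨s, hs⟩ := abs_sum_split χ
  obtain ⟨h3, -, h5⟩ := h2 s
  obtain ⟨-, h4, -⟩ := h2 sᶜ
  have h6 := evd_add_odd R M
  refine ⟨χ, h1, ?_, ?_⟩
  · rw [hs, ← h6]
    push_cast
    linarith
  · intro h7
    apply h5
    rw [hs, ← h6] at h7
    push_cast at h7
    linarith

lemma nt_of_map {M N : C} {z : M ⟶ N} (h : R.H.map z = 0) : NumTrivial z := by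
  rw [numTrivial_iff R hunit]
  intro g
  rw [str, Functor.map_comp, h, zero_comp, zero_comp, ModuleCat.hom_zero, map_zero]

lemma cls_of_op {M : C} {z z' : End M} (h : opHom R M z = opHom R M z') :
    cls R hunit M z = cls R hunit M z' := by
  rw [cls_eq_iff R hunit]
  apply nt_of_map R hunit
  have h1 : opHom R M (z - z') = 0 := by rw [map_sub, h, sub_self]
  exact ModuleCat.hom_ext h1

omit hunit in
lemma str_op {M : C} (z : End M) : str R (show M ⟶ M from z) =
    LinearMap.trace K (R.H.obj M) (sgn R M * opHom R M z) := rfl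

/-- **The equality under the sign conjecture.** -/
theorem dec_eq {M : C} {n : ℕ} {e : Fin n → (M ⟶ M)} (h : NumDecomp M e)
    (hi : ∀ i, NumIndec (e i)) (hC : R.CPlus M) {χ : Fin n → ℤ}
    (hχ : ∀ i, ctr (e i) = (χ i : ℚ) • 𝟙 _) :
    ∑ i, |χ i| = (Module.finrank K (R.H.obj M) : ℤ) := by
  have hK := R_charZero R
  have h2 : (2 : K) ≠ 0 := two_ne_zero
  have h0 := R.finite M
  have hoi := oi_of_dec R hunit h
  obtain ⟨f, hf⟩ := (cplus_iff_hom R).1 hC
  set F : End M := f with hF
  have hfe : opHom R M F = (2 : K)⁻¹ • (1 + sgn R M) := by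
    rw [← hf, smul_smul, inv_mul_cancel₀ h2, one_smul]
    rfl
  have hfe' : opHom R M (1 - F) = (2 : K)⁻¹ • (1 - sgn R M) := by
    rw [map_sub, map_one, hfe]
    have h3 : (1 : Module.End K (R.H.obj M)) = (2 : K)⁻¹ • (1 + sgn R M) +
        (2 : K)⁻¹ • (1 - sgn R M) := by
      rw [← smul_add]
      have : (1 + sgn R M + (1 - sgn R M) : Module.End K (R.H.obj M)) = (2 : K) • 1 := by
        rw [two_smul]; abel
      rw [this, smul_smul, inv_mul_cancel₀ h2, one_smul]
    exact sub_eq_iff_eq_add'.2 h3
  have hidem := half_idem R (M := M)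
  have hidF : cls R hunit M F * cls R hunit M F = cls R hunit M F := by
    rw [← map_mul]
    apply cls_of_op
    rw [map_mul, hfe]
    exact hidem
  have hcomm : ∀ z : End M, cls R hunit M F * cls R hunit M z =
      cls R hunit M z * cls R hunit M F := by
    intro z
    rw [← map_mul, ← map_mul]
    apply cls_of_op
    rw [map_mul, map_mul, hfe]
    have h3 := sgn_comm R (a := opHom R M z) ⟨z, rfl⟩
    rw [smul_mul_assoc, mul_smul_comm, add_mul, mul_add, one_mul, mul_one, h3]
  have hpm : (2 : K)⁻¹ • (1 + sgn R M) * ((2 : K)⁻¹ • (1 - sgn R M)) =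
      (0 : Module.End K (R.H.obj M)) := by
    have h3 : (1 + sgn R M) * (1 - sgn R M) = 0 := by
      rw [mul_sub, add_mul, add_mul, sgn_sq, one_mul, mul_one, one_mul, add_comm (sgn R M),
        sub_self]
    rw [smul_mul_smul_comm, h3, smul_zero]
  have hmp : (2 : K)⁻¹ • (1 - sgn R M) * ((2 : K)⁻¹ • (1 + sgn R M)) =
      (0 : Module.End K (R.H.obj M)) := by
    have h3 : (1 - sgn R M) * (1 + sgn R M) = 0 := by
      rw [mul_add, sub_mul, sub_mul, sgn_sq, one_mul, mul_one, one_mul]
      abel
    rw [smul_mul_smul_comm, h3, smul_zero]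
  -- the traces
  have hcast : ∀ i, str R (e i) = (χ i : K) := by
    intro i
    have h3 := (ctr_eq_iff R hunit (e i) _).1 (hχ i)
    rw [h3]
    push_cast
    rfl
  have hkey : ∀ i, ((|χ i| : ℤ) : K) = str R (show M ⟶ M from (show End M from e i) * F) -
      str R (show M ⟶ M from (show End M from e i) * (1 - F)) := by
    intro i
    set E : End M := e i with hE
    have hEi : cls R hunit M E * cls R hunit M E = cls R hunit M E := hoi.idem i
    have hsum : str R (show M ⟶ M from E) = str R (show M ⟶ M from E * F) +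
        str R (show M ⟶ M from E * (1 - F)) := by
      have h3 : E = E * F + E * (1 - F) := by rw [← mul_add, add_sub_cancel, mul_one]
      have h4 := str_add R (show M ⟶ M from E * F) (show M ⟶ M from E * (1 - F))
      rw [← h4]
      exact congrArg (fun z : End M => str R (show M ⟶ M from z)) h3
    have hEF : cls R hunit M (E * F) * cls R hunit M (E * F) = cls R hunit M (E * F) := by
      rw [map_mul, mul_assoc, ← mul_assoc (cls R hunit M F), hcomm, mul_assoc, hidF, ← mul_assoc,
        hEi]
    have hEF' : cls R hunit M (E * (1 - F)) * cls R hunit M (E * (1 - F)) =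
        cls R hunit M (E * (1 - F)) := by
      have h3 : cls R hunit M (1 - F) * cls R hunit M E =
          cls R hunit M E * cls R hunit M (1 - F) := by
        rw [map_sub, map_one, sub_mul, mul_sub, hcomm, one_mul, mul_one]
      have h4 : cls R hunit M (1 - F) * cls R hunit M (1 - F) = cls R hunit M (1 - F) := by
        rw [map_sub, map_one, mul_sub, mul_one, sub_mul, one_mul, hidF]
        abel
      rw [map_mul, mul_assoc, ← mul_assoc (cls R hunit M (1 - F)), h3, mul_assoc, h4, ← mul_assoc,
        hEi]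
    obtain ⟨m, k, a1, -, -, a2, -⟩ := idem_str R hunit hEF
    have a3 : k = 0 := a2 (by rw [map_mul, hfe, mul_assoc, hpm, mul_zero])
    obtain ⟨m', k', b1, -, -, -, b2⟩ := idem_str R hunit hEF'
    have b3 : m' = 0 := b2 (by rw [map_mul, hfe', mul_assoc, hmp, mul_zero])
    rw [a3, Nat.cast_zero, sub_zero] at a1
    rw [b3, Nat.cast_zero, zero_sub] at b1
    have hor := (hi i).2 (show M ⟶ M from E * F) (by
      have h3 := hEF
      rw [← map_mul, cls_eq_iff] at h3
      exact h3) (by
      have h3 : cls R hunit M (E * (E * F) * E) = cls R hunit M (E * F) := by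
        rw [map_mul, map_mul, map_mul, ← mul_assoc, hEi, mul_assoc, hcomm, ← mul_assoc, hEi]
      rw [cls_eq_iff] at h3
      exact h3)
    rw [a1, b1]
    rw [a1, b1, hcast] at hsum
    rcases hor with hor | hor
    · have c1 : cls R hunit M (E * F) = cls R hunit M 0 := by
        rw [map_zero, cls_zero_iff]
        exact hor
      have c2 := str_congr R hunit c1
      have c3 : str R (show M ⟶ M from (0 : End M)) = 0 := str_zero R
      rw [a1, c3] at c2
      have c4 : (m : ℤ) = 0 := by exact_mod_cast c2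
      have c5 : χ i = (m : ℤ) + -(k' : ℤ) := by exact_mod_cast hsum
      have c6 : |χ i| = (k' : ℤ) := by
        rw [c5, c4, zero_add, abs_neg, Nat.abs_cast]
      rw [c6, c2]
      push_cast
      ring
    · have c1 : cls R hunit M (E * F) = cls R hunit M E := by
        rw [cls_eq_iff]
        exact hor
      have c2 : cls R hunit M (E * (1 - F)) = cls R hunit M 0 := by
        rw [mul_sub, mul_one, map_sub, c1, sub_self, map_zero]
      have c3 := str_congr R hunit c2
      have c4 : str R (show M ⟶ M from (0 : End M)) = 0 := str_zero R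
      rw [b1, c4, neg_eq_zero] at c3
      have c5 : (k' : ℤ) = 0 := by exact_mod_cast c3
      have c6 : χ i = (m : ℤ) + -(k' : ℤ) := by exact_mod_cast hsum
      have c7 : |χ i| = (m : ℤ) := by
        rw [c6, c5, neg_zero, add_zero, Nat.abs_cast]
      rw [c7, c3]
      push_cast
      ring
  -- the sum
  have hsumF : ∀ G : End M, ∑ i, str R (show M ⟶ M from (show End M from e i) * G) =
      str R (show M ⟶ M from G) := by
    intro G
    rw [← str_sum R Finset.univ fun i => (show M ⟶ M from (show End M from e i) * G)]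
    have h3 : cls R hunit M (show End M from
        ∑ i, (show M ⟶ M from (show End M from e i) * G)) = cls R hunit M G := by
      rw [sum_comp_cls]
      have h4 : ∀ i, cls R hunit M (show End M from (show M ⟶ M from (show End M from e i) * G)) =
          cls R hunit M (show End M from e i) * cls R hunit M G := fun i => map_mul _ _ _
      rw [Finset.sum_congr rfl fun i _ => h4 i, ← Finset.sum_mul, hoi.sum, one_mul]
    exact str_congr R hunit h3
  have hF1 : str R (show M ⟶ M from F) = (evd R M : K) := by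
    rw [str_op, hfe, mul_smul_comm, mul_add, mul_one, sgn_sq, add_comm, trace_half]
    rfl
  have hF2 : str R (show M ⟶ M from (1 - F : End M)) = -(odd R M : K) := by
    have h3 := str_sub R (𝟙 M) (show M ⟶ M from F)
    rw [str_one, hF1] at h3
    have h4 : str R (show M ⟶ M from (1 - F : End M)) = str R (𝟙 M - (show M ⟶ M from F)) := rfl
    rw [h4, h3]
    ring
  have htot : ((∑ i, |χ i| : ℤ) : K) = ((Module.finrank K (R.H.obj M) : ℤ) : K) := by
    rw [← evd_add_odd R M]
    push_cast [Int.cast_sum] at hkey ⊢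
    rw [Finset.sum_congr rfl fun i _ => hkey i, Finset.sum_sub_distrib, hsumF, hsumF, hF1, hF2]
    ring
  exact_mod_cast htot

end

end Pool.Agent.Q154.NS
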