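import Pool.Agent.Q154.NS.Sum

/-! Domination of the even or of the odd part by objects which satisfy the sign conjecture. -/

set_option autoImplicit false
set_option linter.unusedSectionVars false
set_option linter.unusedSimpArgs false
set_option linter.unusedVariables false
set_option backward.isDefEq.respectTransparency false
set_option backward.defeqAttrib.useBackward true

open CategoryTheory Limits MonoidalCategory
open Pool.Agent.Y112.SR Pool.Agent.Q259.NCSign

namespace Pool.Agent.Q154.NS

universe v u w w'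

section

variable {C : Type u} [Category.{v} C] [Preadditive C] [Linear ℚ C] [MonoidalCategory C]
  [SymmetricCategory C] [RightRigidCategory C] {K : Type w} [Field K] (R : SuperRealisation C K)

/-- The operators on the realisation of `M` given by the endomorphisms of `M` which factor through
an object of the class `S`. -/
def fac (S : C → Prop) (M : C) : Set (Module.End K (R.H.obj M)) :=
  {a | ∃ (N : C) (f : M ⟶ N) (g : N ⟶ M), S N ∧ (R.H.map (f ≫ g)).hom = a}

/-- The vector `x` of the realisation of `M` is dominated by the class `S`: it is a linear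
combination of the vectors `R(f ≫ g) x`, where `f : M ⟶ N`, `g : N ⟶ M` and `N` is in `S`. -/
def Dominated (S : C → Prop) (M : C) (x : R.H.obj M) : Prop :=
  x ∈ Submodule.span K {v | ∃ (N : C) (f : M ⟶ N) (g : N ⟶ M), S N ∧ (R.H.map (f ≫ g)).hom x = v}

lemma dominated_iff {S : C → Prop} {M : C} {x : R.H.obj M} :
    Dominated R S M x ↔ ∃ j ∈ Submodule.span K (fac R S M), j x = x := by
  have h1 : {v | ∃ (N : C) (f : M ⟶ N) (g : N ⟶ M), S N ∧ (R.H.map (f ≫ g)).hom x = v} =
      ((LinearMap.applyₗ x : Module.End K (R.H.obj M) →ₗ[K] _) '' fac R S M) := by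
    ext v
    constructor
    · rintro ⟨N, f, g, h, rfl⟩
      exact ⟨_, ⟨N, f, g, h, rfl⟩, rfl⟩
    · rintro ⟨_, ⟨N, f, g, h, rfl⟩, rfl⟩
      exact ⟨N, f, g, h, rfl⟩
  rw [Dominated, h1, ← Submodule.map_span, Submodule.mem_map]
  rfl

lemma fac_sub_ops {S : C → Prop} {M : C} : fac R S M ⊆ ops R M := by
  rintro _ ⟨N, f, g, -, rfl⟩
  exact ⟨f ≫ g, rfl⟩

lemma fac_mul {S : C → Prop} {M : C} {a b : Module.End K (R.H.obj M)}
    (ha : a ∈ Submodule.span K (fac R S M)) (hb : b ∈ Submodule.span K (fac R S M)) :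
    a * b ∈ Submodule.span K (fac R S M) := by
  induction ha using Submodule.span_induction with
  | mem x hx =>
    induction hb using Submodule.span_induction with
    | mem y hy =>
      obtain ⟨N, f, g, hN, rfl⟩ := hx
      obtain ⟨N', f', g', hN', rfl⟩ := hy
      apply Submodule.subset_span
      refine ⟨N', f', g' ≫ f ≫ g, hN', ?_⟩
      have e : f' ≫ g' ≫ f ≫ g = (f' ≫ g') ≫ (f ≫ g) := by simp only [Category.assoc]
      rw [e, Functor.map_comp]
      rfl
    | zero => rw [mul_zero]; exact Submodule.zero_mem _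
    | add y z _ _ h1 h2 => rw [mul_add]; exact Submodule.add_mem _ h1 h2
    | smul c y _ h1 => rw [mul_smul_comm]; exact Submodule.smul_mem _ _ h1
  | zero => rw [zero_mul]; exact Submodule.zero_mem _
  | add x y _ _ h1 h2 => rw [add_mul]; exact Submodule.add_mem _ h1 h2
  | smul c x _ h1 => rw [smul_mul_assoc]; exact Submodule.smul_mem _ _ h1

/-- One operator for finitely many vectors of one parity `τ = 1` or `τ = -1`. -/
lemma fac_list {S : C → Prop} {M : C} (τ : K)
    (h : ∀ x, sgn R M x = τ • x → Dominated R S M x) (l : List (R.H.obj M))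
    (hl : ∀ x ∈ l, sgn R M x = τ • x) :
    ∃ j ∈ Submodule.span K (fac R S M), ∀ x ∈ l, j x = x := by
  induction l with
  | nil => exact ⟨0, Submodule.zero_mem _, by simp⟩
  | cons x l ih =>
    obtain ⟨j, hj, hjl⟩ := ih fun z hz => hl z (List.mem_cons_of_mem _ hz)
    have hx := hl x List.mem_cons_self
    have hjo : j ∈ Submodule.span K (ops R M) := Submodule.span_mono (fac_sub_ops R) hj
    have hc : sgn R M (j x) = j (sgn R M x) := LinearMap.congr_fun (sgn_comm_span R hjo) x
    obtain ⟨j', hj', hj'x⟩ := (dominated_iff R).1 (h (x - j x) (by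
      rw [map_sub, hc, hx, map_smul, smul_sub]))
    refine ⟨j + j' - j' * j, Submodule.sub_mem _ (Submodule.add_mem _ hj hj') (fac_mul R hj' hj),
      ?_⟩
    intro z hz
    rw [LinearMap.sub_apply, LinearMap.add_apply, Module.End.mul_apply]
    rcases List.mem_cons.1 hz with rfl | hz
    · rw [map_sub] at hj'x
      rw [add_sub_assoc, hj'x]
      abel
    · rw [hjl z hz]; abel

/-- One operator for all vectors of one parity. -/
lemma fac_all {S : C → Prop} {M : C} (τ : K)
    (h : ∀ x, sgn R M x = τ • x → Dominated R S M x) :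
    ∃ j ∈ Submodule.span K (fac R S M), ∀ x, sgn R M x = τ • x → j x = x := by
  have h0 := R.finite M
  obtain ⟨s, hs⟩ := (IsNoetherian.noetherian (LinearMap.ker (sgn R M - τ • 1)) :
    (LinearMap.ker (sgn R M - τ • 1)).FG)
  have hpar : ∀ y, sgn R M y = τ • y ↔ y ∈ LinearMap.ker (sgn R M - τ • 1) := by
    intro y
    rw [LinearMap.mem_ker, LinearMap.sub_apply, LinearMap.smul_apply, Module.End.one_apply,
      sub_eq_zero]
  obtain ⟨j, hj, hjl⟩ := fac_list R τ h s.toList (by
    intro y hy
    rw [hpar, ← hs]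
    exact Submodule.subset_span (Finset.mem_toList.1 hy))
  refine ⟨j, hj, fun y hy => ?_⟩
  rw [hpar, ← hs] at hy
  have hle : Submodule.span K (s : Set (R.H.obj M)) ≤ LinearMap.ker (j - 1) := by
    rw [Submodule.span_le]
    intro z hz
    refine LinearMap.mem_ker.2 ?_
    rw [LinearMap.sub_apply, Module.End.one_apply, hjl z (Finset.mem_toList.2 hz), sub_self]
  have h1 := LinearMap.mem_ker.1 (hle hy)
  rw [LinearMap.sub_apply, Module.End.one_apply, sub_eq_zero] at h1
  exact h1

/-- The parity times an operator which factors through objects with `C⁺` is in the span. -/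
lemma sgn_fac {S : C → Prop} (hS : ∀ N, S N → R.CPlus N) {M : C}
    {a : Module.End K (R.H.obj M)} (ha : a ∈ Submodule.span K (fac R S M)) :
    sgn R M * a ∈ Submodule.span K (ops R M) := by
  induction ha using Submodule.span_induction with
  | mem x hx =>
    obtain ⟨N, f, g, hN, rfl⟩ := hx
    obtain ⟨p, hp⟩ := (cplus_iff R N).1 (hS N hN)
    apply Submodule.subset_span
    refine ⟨f ≫ p ≫ g, ?_⟩
    rw [Functor.map_comp, Functor.map_comp, hp, ← R.par_natural, ← Functor.map_comp_assoc]
    rfl
  | zero => rw [mul_zero]; exact Submodule.zero_mem _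
  | add x y _ _ h1 h2 => rw [mul_add]; exact Submodule.add_mem _ h1 h2
  | smul c x _ h1 => rw [mul_smul_comm]; exact Submodule.smul_mem _ _ h1

variable (hunit : ∀ c : 𝟙_ C ⟶ 𝟙_ C, ∃ q : ℚ, c = q • 𝟙 _)
include hunit

/-- **Domination of the even part.** -/
theorem cplus_of_even {S : C → Prop} (hS : ∀ N, S N → R.CPlus N) {M : C}
    (h : ∀ x, sgn R M x = x → Dominated R S M x) : R.CPlus M := by
  have hK := R_charZero R
  have h2 : (2 : K) ≠ 0 := two_ne_zero
  obtain ⟨j, hj, hjx⟩ := fac_all R (1 : K) (S := S) (M := M) fun x hx => h x (by rwa [one_smul] at hx)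
  have hjo : j ∈ Submodule.span K (ops R M) := Submodule.span_mono (fac_sub_ops R) hj
  refine cplus_of_span R hunit ⟨(2 : K)⁻¹ • (j + sgn R M * j), ?_, ?_⟩
  · exact Submodule.smul_mem _ _ (Submodule.add_mem _ hjo (sgn_fac R hS hj))
  · rw [smul_smul, mul_inv_cancel₀ h2, one_smul]
    ext x
    have hc : sgn R M (j x) = j (sgn R M x) := LinearMap.congr_fun (sgn_comm_span R hjo) x
    have hss : sgn R M (sgn R M x) = x := LinearMap.congr_fun (sgn_sq R M) x
    change j x + sgn R M (j x) = x + sgn R M x
    rw [hc, ← map_add]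
    apply hjx
    rw [map_add, hss, one_smul, add_comm]

/-- **Domination of the odd part.** -/
theorem cplus_of_odd {S : C → Prop} (hS : ∀ N, S N → R.CPlus N) {M : C}
    (h : ∀ x, sgn R M x = -x → Dominated R S M x) : R.CPlus M := by
  have hK := R_charZero R
  have h2 : (2 : K) ≠ 0 := two_ne_zero
  obtain ⟨j, hj, hjx⟩ := fac_all R (-1 : K) (S := S) (M := M) fun x hx => h x (by
    rwa [neg_smul, one_smul] at hx)
  have hjo : j ∈ Submodule.span K (ops R M) := Submodule.span_mono (fac_sub_ops R) hj
  have h1o : (1 : Module.End K (R.H.obj M)) ∈ Submodule.span K (ops R M) :=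
    Submodule.subset_span (one_mem_ops R M)
  refine cplus_of_span R hunit
    ⟨1 - (2 : K)⁻¹ • (j - sgn R M * j), ?_, ?_⟩
  · exact Submodule.sub_mem _ h1o
      (Submodule.smul_mem _ _ (Submodule.sub_mem _ hjo (sgn_fac R hS hj)))
  · rw [smul_sub, smul_smul, mul_inv_cancel₀ h2, one_smul]
    ext x
    have hc : sgn R M (j x) = j (sgn R M x) := LinearMap.congr_fun (sgn_comm_span R hjo) x
    have hss : sgn R M (sgn R M x) = x := LinearMap.congr_fun (sgn_sq R M) x
    have h3 : j (x - sgn R M x) = x - sgn R M x := by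
      apply hjx
      rw [map_sub, hss, neg_smul, one_smul, neg_sub]
    change (2 : K) • x - (j x - sgn R M (j x)) = x + sgn R M x
    rw [hc, ← map_sub, h3, two_smul]
    abel

/-- Numerical direct summands which exhaust the even part or the odd part. -/
theorem cplus_of_sum {K' : Type w'} [Field K'] (R' : SuperRealisation C K') {M : C} {k : ℕ}
    {N : Fin k → C} {i : ∀ j, N j ⟶ M} {r : ∀ j, M ⟶ N j} (h : NumSummands M N i r)
    (hC : ∀ j, R'.CPlus (N j))
    (hd : ∑ j, evd R' (N j) = evd R M ∨ ∑ j, odd R' (N j) = odd R M) : R.CPlus M := by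
  have hK := R_charZero R
  rcases hd with hd | hd
  · exact (sum_main R hunit R' h hC).2.2.1 hd
  · choose p hp hp' using fun j => cplus_data R' (hC j)
    have ip := fun j => proj_idem R' hunit (hp j)
    have ip' := fun j => compl_idem R' hunit (ip j)
    have z2 := sum_idem R hunit h (fun j => 𝟙 (N j) - p j) ip'
    have s2 : ∀ j, str R (r j ≫ (𝟙 (N j) - p j) ≫ i j) = -(odd R' (N j) : K) := by
      intro j
      have h1 := str_piece R hunit R' (h.diag j) (𝟙 (N j) - p j) (t := -(odd R' (N j) : ℤ)) (by
        rw [(str_proj R' (hp j)).2]; push_cast; rfl)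
      rw [h1]
      push_cast
      rfl
    have t2 : str R (∑ j, r j ≫ (𝟙 (N j) - p j) ≫ i j) = -(odd R M : K) := by
      rw [str_sum, Finset.sum_congr rfl fun j _ => s2 j, Finset.sum_neg_distrib, ← hd]
      push_cast
      rfl
    have z3 := compl_idem R hunit z2
    apply cplus_of_idem R hunit (z := 𝟙 M - ∑ j, r j ≫ (𝟙 (N j) - p j) ≫ i j)
    · rw [← map_mul, cls_eq_iff]
      exact z3
    · change str R (𝟙 M - ∑ j, r j ≫ (𝟙 (N j) - p j) ≫ i j) = _
      rw [str_sub, str_one, t2]
      ring

end

end Pool.Agent.Q154.NS
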