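import Pool.Agent.Q154.NS.Dec

/-! Existence of decompositions of the numerical motive into indecomposable direct summands. -/

set_option autoImplicit false
set_option linter.unusedSectionVars false
set_option linter.unusedSimpArgs false
set_option linter.unusedVariables false
set_option backward.isDefEq.respectTransparency false
set_option backward.defeqAttrib.useBackward true

open CategoryTheory Limits MonoidalCategory
open Pool.Agent.Y112.SR Pool.Agent.Q259.NCSign

namespace Pool.Agent.Q154.NS

universe v u w w'

section

variable {C : Type u} [Category.{v} C] [Preadditive C] [Linear ℚ C] [MonoidalCategory C]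
  [SymmetricCategory C] [RightRigidCategory C] {K : Type w} [Field K] (R : SuperRealisation C K)

variable (hunit : ∀ c : 𝟙_ C ⟶ 𝟙_ C, ∃ q : ℚ, c = q • 𝟙 _)
include R hunit

lemma str_zero_of_cls {M : C} {z : End M} (h : cls R hunit M z = 0) :
    str R (show M ⟶ M from z) = 0 := by
  have h1 : cls R hunit M z = cls R hunit M 0 := by rw [h, map_zero]
  have h2 := str_congr R hunit h1
  have h3 : str R (show M ⟶ M from (0 : End M)) = 0 := str_zero R
  rw [h2, h3]

/-- The number of nonzero summands is bounded. -/
lemma card_le {M : C} {n : ℕ} {e : Fin n → (M ⟶ M)} (h : NumDecomp M e)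
    (hne : ∀ i, ¬ NumTrivial (e i)) :
    n ≤ Module.finrank K (Module.End K (R.H.obj M)) := by
  have hK := R_charZero R
  have h0 := R.finite M
  have hoi := oi_of_dec R hunit h
  have h1 : ∀ i, ∃ g : M ⟶ M, str R (e i ≫ g) ≠ 0 := by
    intro i
    have h2 := hne i
    rw [numTrivial_iff R hunit] at h2
    push Not at h2
    exact h2
  choose g hg using h1
  set E : Fin n → End M := fun i => e i with hE
  set G : Fin n → End M := fun i => g i with hG
  set w : Fin n → Module.End K (R.H.obj M) := fun i => opHom R M (E i * G i * E i) with hw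
  have hL : ∀ j i, LinearMap.trace K (R.H.obj M) (sgn R M * (opHom R M (E j) * w i)) =
      str R (show M ⟶ M from E j * (E i * G i * E i)) := by
    intro j i
    rw [str_op, map_mul (opHom R M) (E j)]
  have hne' : ∀ i j, i ≠ j → str R (show M ⟶ M from E j * (E i * G i * E i)) = 0 := by
    intro i j hij
    apply str_zero_of_cls R hunit
    rw [map_mul, map_mul, map_mul, ← mul_assoc, ← mul_assoc]
    have h3 : cls R hunit M (E j) * cls R hunit M (E i) = 0 := hoi.orth j i hij.symm
    rw [h3, zero_mul, zero_mul]
  have heq : ∀ i, str R (show M ⟶ M from E i * (E i * G i * E i)) ≠ 0 := by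
    intro i
    have hid : cls R hunit M (E i) * cls R hunit M (E i) = cls R hunit M (E i) := hoi.idem i
    have h4 : str R (show M ⟶ M from E i * (E i * G i * E i)) =
        str R (show M ⟶ M from (E i * G i) * E i) := by
      apply str_congr R hunit
      rw [map_mul, map_mul, map_mul, ← mul_assoc, ← mul_assoc, hid]
    have h5 : str R (show M ⟶ M from (E i * G i) * E i) =
        str R (show M ⟶ M from E i * (E i * G i)) := str_comm R _ _
    have h6 : str R (show M ⟶ M from E i * (E i * G i)) = str R (show M ⟶ M from E i * G i) := by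
      apply str_congr R hunit
      rw [map_mul, map_mul, ← mul_assoc, hid]
    have h7 : str R (show M ⟶ M from E i * G i) = str R (e i ≫ g i) := str_comm R _ _
    rw [h4, h5, h6, h7]
    exact hg i
  have hli : LinearIndependent K w := by
    rw [Fintype.linearIndependent_iff]
    intro c hc j
    have h3 := congrArg (fun a => LinearMap.trace K (R.H.obj M)
      (sgn R M * (opHom R M (E j) * a))) hc
    simp only [Finset.mul_sum, mul_smul_comm, map_sum, map_smul, hL, smul_eq_mul, mul_zero,
      map_zero] at h3
    rw [Finset.sum_eq_single j] at h3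
    · exact (mul_eq_zero.1 h3).resolve_right (heq j)
    · intro i _ hij
      rw [hne' i j hij, mul_zero]
    · intro hj
      exact absurd (Finset.mem_univ j) hj
  have h4 := hli.fintype_card_le_finrank
  rwa [Fintype.card_fin] at h4

/-- Refinement of a decomposition. -/
lemma refine_dec {M : C} {n : ℕ} {e : Fin n → (M ⟶ M)} (h : NumDecomp M e)
    (hne : ∀ i, ¬ NumTrivial (e i)) {i : Fin n} (hi : ¬ NumIndec (e i)) :
    ∃ e' : Fin (n + 1) → (M ⟶ M), NumDecomp M e' ∧ ∀ i, ¬ NumTrivial (e' i) := by
  have hoi := oi_of_dec R hunit h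
  rw [NumIndec, not_and] at hi
  have h1 := hi (hne i)
  push Not at h1
  obtain ⟨z, hz, hez, hz0, hz1⟩ := h1
  have hZ : cls R hunit M (show End M from z) * cls R hunit M (show End M from z) =
      cls R hunit M (show End M from z) := by
    rw [← map_mul, cls_eq_iff]
    exact hz
  have hEZ : cls R hunit M (show End M from e i) * cls R hunit M (show End M from z) *
      cls R hunit M (show End M from e i) = cls R hunit M (show End M from z) := by
    rw [← map_mul, ← map_mul, cls_eq_iff]
    exact hez
  have h2 := hoi.refine i hZ hEZ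
  refine ⟨Fin.cons z (Function.update e i (e i - z)), ?_, ?_⟩
  · apply dec_of_oi R hunit
    convert h2 using 2
    rename_i a
    refine Fin.cases ?_ (fun a' => ?_) a
    · rw [Fin.cons_zero, Fin.cons_zero]
    · rw [Fin.cons_succ, Fin.cons_succ]
      by_cases ha : a' = i
      · subst ha
        rw [Function.update_self, Function.update_self]
        exact map_sub (cls R hunit M) (show End M from e a') (show End M from z)
      · rw [Function.update_of_ne ha, Function.update_of_ne ha]
  · intro a
    refine Fin.cases ?_ (fun a' => ?_) a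
    · rw [Fin.cons_zero]
      exact hz0
    · rw [Fin.cons_succ]
      by_cases ha : a' = i
      · subst ha
        rw [Function.update_self]
        intro h3
        apply hz1
        have h4 := nt_neg R hunit h3
        rwa [neg_sub] at h4
      · rw [Function.update_of_ne ha]
        exact hne a'

lemma dec_zero {M : C} (h : NumTrivial (𝟙 M)) : NumDecomp M (fun i : Fin 0 => i.elim0) := by
  refine ⟨fun i => i.elim0, fun i => i.elim0, ?_⟩
  rw [Finset.univ_eq_empty, Finset.sum_empty, zero_sub]
  exact nt_neg R hunit h

lemma dec_one (M : C) : NumDecomp M (fun _ : Fin 1 => 𝟙 M) := by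
  refine ⟨fun i j hij => absurd (Subsingleton.elim i j) hij, fun i => ?_, ?_⟩
  · rw [Category.comp_id, sub_self]
    exact nt_zero R hunit
  · rw [Fin.sum_univ_one, sub_self]
    exact nt_zero R hunit

/-- **Existence of decompositions into indecomposable direct summands.** -/
theorem exists_dec (M : C) : ∃ (n : ℕ) (e : Fin n → (M ⟶ M)), NumDecomp M e ∧
    ∀ i, NumIndec (e i) := by
  by_contra hcon
  push Not at hcon
  have hstep : ∀ n, (∃ e : Fin n → (M ⟶ M), NumDecomp M e ∧ ∀ i, ¬ NumTrivial (e i)) →
      ∃ e : Fin (n + 1) → (M ⟶ M), NumDecomp M e ∧ ∀ i, ¬ NumTrivial (e i) := by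
    rintro n ⟨e, he, hne⟩
    obtain ⟨i, hi⟩ := hcon n e he
    exact refine_dec R hunit he hne hi
  have hstart : ∃ n₀, ∃ e : Fin n₀ → (M ⟶ M), NumDecomp M e ∧ ∀ i, ¬ NumTrivial (e i) := by
    by_cases h1 : NumTrivial (𝟙 M)
    · exact ⟨0, _, dec_zero R hunit h1, fun i => i.elim0⟩
    · exact ⟨1, _, dec_one R hunit M, fun _ => h1⟩
  obtain ⟨n₀, h0⟩ := hstart
  have hall : ∀ k, ∃ e : Fin (n₀ + k) → (M ⟶ M), NumDecomp M e ∧ ∀ i, ¬ NumTrivial (e i) := by
    intro k
    induction k with
    | zero => exact h0
    | succ k ih => exact hstep _ ih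
  obtain ⟨e, he, hne⟩ := hall (Module.finrank K (Module.End K (R.H.obj M)) + 1)
  have h2 := card_le R hunit he hne
  omega

end

end Pool.Agent.Q154.NS
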