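import Pool.Agent.Q154.NS.Dec

/-! Numerical direct sum decompositions into objects which satisfy the sign conjecture. -/

set_option autoImplicit false
set_option linter.unusedSectionVars false
set_option linter.unusedSimpArgs false
set_option linter.unusedVariables false
set_option backward.isDefEq.respectTransparency false
set_option backward.defeqAttrib.useBackward true

open CategoryTheory Limits MonoidalCategory
open Pool.Agent.Y112.SR Pool.Agent.Q259.NCSign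

namespace Pool.Agent.Q154.NS

universe v u w w'

section

variable {C : Type u} [Category.{v} C] [Preadditive C] [MonoidalCategory C]
  [SymmetricCategory C] [RightRigidCategory C]

/-- The numerical motives of the objects `N j` are independent direct summands of the numerical
motive of `M`, with inclusions `i j` and projections `r j`. -/
structure NumSummands (M : C) {k : ℕ} (N : Fin k → C) (i : ∀ j, N j ⟶ M) (r : ∀ j, M ⟶ N j) :
    Prop where
  diag : ∀ j, NumTrivial (i j ≫ r j - 𝟙 (N j))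
  off : ∀ j l, j ≠ l → NumTrivial (i j ≫ r l)

end

section

variable {C : Type u} [Category.{v} C] [Preadditive C] [Linear ℚ C] [MonoidalCategory C]
  [SymmetricCategory C] [RightRigidCategory C] {K : Type w} [Field K] (R : SuperRealisation C K)

/-- the algebraic even projector and its complement -/
lemma cplus_data {M : C} (hC : R.CPlus M) : ∃ p : M ⟶ M,
    (R.H.map p).hom = (2 : K)⁻¹ • (1 + sgn R M) ∧
    (R.H.map (𝟙 M - p)).hom = (2 : K)⁻¹ • (1 - sgn R M) := by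
  have hK := R_charZero R
  have h2 : (2 : K) ≠ 0 := two_ne_zero
  obtain ⟨f, hf⟩ := (cplus_iff_hom R).1 hC
  have h1 : (R.H.map f).hom = (2 : K)⁻¹ • (1 + sgn R M) := by
    rw [← hf, smul_smul, inv_mul_cancel₀ h2, one_smul]
  refine ⟨f, h1, ?_⟩
  rw [Functor.map_sub, ModuleCat.hom_sub, h1, CategoryTheory.Functor.map_id]
  have h3 : (1 : Module.End K (R.H.obj M)) = (2 : K)⁻¹ • (1 + sgn R M) +
      (2 : K)⁻¹ • (1 - sgn R M) := by
    rw [← smul_add]
    have : (1 + sgn R M + (1 - sgn R M) : Module.End K (R.H.obj M)) = (2 : K) • 1 := by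
      rw [two_smul]; abel
    rw [this, smul_smul, inv_mul_cancel₀ h2, one_smul]
  exact sub_eq_iff_eq_add'.2 h3

variable (hunit : ∀ c : 𝟙_ C ⟶ 𝟙_ C, ∃ q : ℚ, c = q • 𝟙 _)
include R hunit

lemma nt_sub {M N : C} {f g : M ⟶ N} (hf : NumTrivial f) (hg : NumTrivial g) :
    NumTrivial (f - g) := by
  rw [sub_eq_add_neg]
  exact nt_add R hunit hf (nt_neg R hunit hg)

lemma nt_trans {M N : C} {f g h : M ⟶ N} (h1 : NumTrivial (f - g)) (h2 : NumTrivial (g - h)) :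
    NumTrivial (f - h) := by
  have := nt_add R hunit h1 h2
  rwa [sub_add_sub_cancel] at this

/-- substitution in the middle -/
lemma nt_mid {L M N P : C} (a : L ⟶ M) {f g : M ⟶ N} (h : NumTrivial (f - g)) (b : N ⟶ P) :
    NumTrivial (a ≫ f ≫ b - a ≫ g ≫ b) := by
  have h1 : a ≫ f ≫ b - a ≫ g ≫ b = a ≫ (f - g) ≫ b := by
    rw [Preadditive.sub_comp, Preadditive.comp_sub]
  rw [h1]
  exact comp_nt R hunit a (nt_comp h b)

lemma nt_left {L M N : C} (a : L ⟶ M) {f g : M ⟶ N} (h : NumTrivial (f - g)) :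
    NumTrivial (a ≫ f - a ≫ g) := by
  rw [← Preadditive.comp_sub]
  exact comp_nt R hunit a h

lemma nt_right {M N P : C} {f g : M ⟶ N} (h : NumTrivial (f - g)) (b : N ⟶ P) :
    NumTrivial (f ≫ b - g ≫ b) := by
  rw [← Preadditive.sub_comp]
  exact nt_comp h b

lemma str_congr' {M : C} {f g : M ⟶ M} (h : NumTrivial (f - g)) : str R f = str R g := by
  apply str_congr R hunit (z := f) (z' := g)
  rw [cls_eq_iff]
  exact h

lemma nt_of_map_eq {M N : C} {f g : M ⟶ N} (h : R.H.map f = R.H.map g) : NumTrivial (f - g) := by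
  apply nt_of_map R hunit
  rw [Functor.map_sub, h, sub_self]

/-- The common rational value of the supertraces of two realisations. -/
lemma str_rat {K' : Type w'} [Field K'] (R' : SuperRealisation C K') {M : C} (f : M ⟶ M) :
    ∃ q : ℚ, str R f = (q : K) ∧ str R' f = (q : K') := by
  obtain ⟨q, hq⟩ := hunit (ctr f)
  exact ⟨q, (ctr_eq_iff R hunit f q).1 hq, (ctr_eq_iff R' hunit f q).1 hq⟩

/-- The trace of a morphism which is idempotent modulo numerical equivalence. -/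
lemma idem_str' {M : C} {z : M ⟶ M} (h : NumTrivial (z ≫ z - z)) :
    ∃ m n : ℕ, str R z = (m : K) - n ∧ m ≤ evd R M ∧ n ≤ odd R M ∧
      ((R.H.map z).hom * ((2 : K)⁻¹ • (1 - sgn R M)) = 0 → n = 0) ∧
      ((R.H.map z).hom * ((2 : K)⁻¹ • (1 + sgn R M)) = 0 → m = 0) := by
  apply idem_str R hunit (z := z)
  rw [← map_mul, cls_eq_iff]
  exact h

lemma proj_idem {M : C} {p : M ⟶ M} (hp : (R.H.map p).hom = (2 : K)⁻¹ • (1 + sgn R M)) :
    NumTrivial (p ≫ p - p) := by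
  apply nt_of_map_eq R hunit
  rw [Functor.map_comp]
  apply ModuleCat.hom_ext
  rw [ModuleCat.hom_comp, hp]
  exact half_idem R

lemma proj_comm {M : C} {p : M ⟶ M} (hp : (R.H.map p).hom = (2 : K)⁻¹ • (1 + sgn R M))
    (z : M ⟶ M) : NumTrivial (p ≫ z - z ≫ p) := by
  apply nt_of_map_eq R hunit
  rw [Functor.map_comp, Functor.map_comp]
  apply ModuleCat.hom_ext
  rw [ModuleCat.hom_comp, ModuleCat.hom_comp, hp]
  have h3 := sgn_comm R (a := (R.H.map z).hom) ⟨z, rfl⟩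
  change (R.H.map z).hom * ((2 : K)⁻¹ • (1 + sgn R M)) =
    ((2 : K)⁻¹ • (1 + sgn R M)) * (R.H.map z).hom
  rw [smul_mul_assoc, mul_smul_comm, add_mul, mul_add, one_mul, mul_one, h3]

lemma mul_idem {M : C} {s b : M ⟶ M} (hs : NumTrivial (s ≫ s - s)) (hb : NumTrivial (b ≫ b - b))
    (hc : NumTrivial (b ≫ s - s ≫ b)) : NumTrivial ((s ≫ b) ≫ (s ≫ b) - s ≫ b) := by
  have e1 : (s ≫ b) ≫ (s ≫ b) = s ≫ (b ≫ s) ≫ b := by simp only [Category.assoc]
  have e2 : s ≫ (s ≫ b) ≫ b = (s ≫ s) ≫ (b ≫ b) := by simp only [Category.assoc]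
  rw [e1]
  refine nt_trans R hunit (nt_mid R hunit s hc b) ?_
  rw [e2]
  exact nt_trans R hunit (nt_right R hunit hs (b ≫ b)) (nt_left R hunit s hb)

/-- the crossed terms -/
lemma cross_aux {M N : C} {i : N ⟶ M} {r : M ⟶ N} (h : NumTrivial (i ≫ r - 𝟙 N))
    {a : N ⟶ N} (ha : NumTrivial (a ≫ a - a)) (hac : ∀ z, NumTrivial (a ≫ z - z ≫ a))
    {b : M ⟶ M} (hb : NumTrivial (b ≫ b - b)) (hbc : ∀ z, NumTrivial (b ≫ z - z ≫ b)) :
    NumTrivial ((r ≫ a ≫ i) ≫ (r ≫ a ≫ i) - r ≫ a ≫ i) ∧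
    NumTrivial (((r ≫ a ≫ i) ≫ b) ≫ ((r ≫ a ≫ i) ≫ b) - (r ≫ a ≫ i) ≫ b) ∧
    NumTrivial (((i ≫ b ≫ r) ≫ a) ≫ ((i ≫ b ≫ r) ≫ a) - (i ≫ b ≫ r) ≫ a) := by
  have h1 : NumTrivial ((r ≫ a ≫ i) ≫ (r ≫ a ≫ i) - r ≫ a ≫ i) := by
    have e1 : (r ≫ a ≫ i) ≫ (r ≫ a ≫ i) = (r ≫ a) ≫ (i ≫ r) ≫ (a ≫ i) := by
      simp only [Category.assoc]
    have e2 : (r ≫ a) ≫ (𝟙 N) ≫ (a ≫ i) = r ≫ (a ≫ a) ≫ i := by
      simp only [Category.assoc, Category.id_comp]
    rw [e1]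
    refine nt_trans R hunit (nt_mid R hunit _ h _) ?_
    rw [e2]
    exact nt_mid R hunit r ha i
  have h2 : NumTrivial ((i ≫ b ≫ r) ≫ (i ≫ b ≫ r) - i ≫ b ≫ r) := by
    have e1 : (i ≫ b ≫ r) ≫ (i ≫ b ≫ r) = i ≫ (b ≫ (r ≫ i)) ≫ (b ≫ r) := by
      simp only [Category.assoc]
    have e2 : i ≫ ((r ≫ i) ≫ b) ≫ (b ≫ r) = (i ≫ r) ≫ (i ≫ (b ≫ b) ≫ r) := by
      simp only [Category.assoc]
    rw [e1]
    refine nt_trans R hunit (nt_mid R hunit i (hbc (r ≫ i)) (b ≫ r)) ?_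
    rw [e2]
    refine nt_trans R hunit (nt_right R hunit h _) ?_
    rw [Category.id_comp]
    exact nt_mid R hunit i hb r
  exact ⟨h1, mul_idem R hunit h1 hb (hbc _), mul_idem R hunit h2 ha (hac _)⟩

lemma compl_idem {M : C} {p : M ⟶ M} (h : NumTrivial (p ≫ p - p)) :
    NumTrivial ((𝟙 M - p) ≫ (𝟙 M - p) - (𝟙 M - p)) := by
  have e : (𝟙 M - p) ≫ (𝟙 M - p) - (𝟙 M - p) = p ≫ p - p := by
    simp only [Preadditive.sub_comp, Preadditive.comp_sub, Category.id_comp, Category.comp_id]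
    abel
  rw [e]
  exact h

lemma compl_comm {M : C} {p : M ⟶ M} (h : ∀ z, NumTrivial (p ≫ z - z ≫ p)) (z : M ⟶ M) :
    NumTrivial ((𝟙 M - p) ≫ z - z ≫ (𝟙 M - p)) := by
  have e : (𝟙 M - p) ≫ z - z ≫ (𝟙 M - p) = -(p ≫ z - z ≫ p) := by
    simp only [Preadditive.sub_comp, Preadditive.comp_sub, Category.id_comp, Category.comp_id]
    abel
  rw [e]
  exact nt_neg R hunit (h z)

omit hunit in
lemma pm_zero (M : C) : ((2 : K)⁻¹ • (1 + sgn R M)) * ((2 : K)⁻¹ • (1 - sgn R M)) =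
      (0 : Module.End K (R.H.obj M)) := by
  have h3 : (1 + sgn R M) * (1 - sgn R M) = 0 := by
    rw [mul_sub, add_mul, add_mul, sgn_sq, one_mul, mul_one, one_mul, add_comm (sgn R M),
      sub_self]
  rw [smul_mul_smul_comm, h3, smul_zero]

omit hunit in
lemma mp_zero (M : C) : ((2 : K)⁻¹ • (1 - sgn R M)) * ((2 : K)⁻¹ • (1 + sgn R M)) =
      (0 : Module.End K (R.H.obj M)) := by
  have h3 : (1 - sgn R M) * (1 + sgn R M) = 0 := by
    rw [mul_add, sub_mul, sub_mul, sgn_sq, one_mul, mul_one, one_mul]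
    abel
  rw [smul_mul_smul_comm, h3, smul_zero]

omit hunit in
lemma hom_par_comm {M : C} (z : M ⟶ M) : (R.H.map z).hom * sgn R M = sgn R M * (R.H.map z).hom :=
  (sgn_comm R (a := (R.H.map z).hom) ⟨z, rfl⟩).symm

/-- The crossed terms have trace zero. -/
lemma cross_zero {K' : Type w'} [Field K'] (R' : SuperRealisation C K') {M N : C} {i : N ⟶ M}
    {r : M ⟶ N} (h : NumTrivial (i ≫ r - 𝟙 N)) {P : M ⟶ M} {p : N ⟶ N}
    (hP : (R.H.map P).hom = (2 : K)⁻¹ • (1 + sgn R M))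
    (hP' : (R.H.map (𝟙 M - P)).hom = (2 : K)⁻¹ • (1 - sgn R M))
    (hp : (R'.H.map p).hom = (2 : K')⁻¹ • (1 + sgn R' N))
    (hp' : (R'.H.map (𝟙 N - p)).hom = (2 : K')⁻¹ • (1 - sgn R' N)) :
    str R ((r ≫ (𝟙 N - p) ≫ i) ≫ P) = 0 ∧ str R ((r ≫ p ≫ i) ≫ (𝟙 M - P)) = 0 := by
  have hK := R_charZero R
  have hK' := R_charZero R'
  have iP := proj_idem R hunit hP
  have cP := proj_comm R hunit hP
  have ip := proj_idem R' hunit hp
  have cp := proj_comm R' hunit hp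
  constructor
  · obtain ⟨-, h1, h2⟩ := cross_aux R hunit h (compl_idem R hunit ip) (compl_comm R hunit cp) iP cP
    obtain ⟨m, k, a1, -, -, a2, -⟩ := idem_str' R hunit h1
    obtain ⟨m', k', b1, -, -, -, b2⟩ := idem_str' R' hunit h2
    have a3 : k = 0 := by
      apply a2
      rw [Functor.map_comp, ModuleCat.hom_comp, hP]
      have e : (R.H.map (r ≫ (𝟙 N - p) ≫ i)).hom * ((2 : K)⁻¹ • (1 - sgn R M)) =
          ((2 : K)⁻¹ • (1 - sgn R M)) * (R.H.map (r ≫ (𝟙 N - p) ≫ i)).hom := by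
        rw [mul_smul_comm, smul_mul_assoc, mul_sub, sub_mul, hom_par_comm, mul_one, one_mul]
      change ((2 : K)⁻¹ • (1 + sgn R M)) * (R.H.map (r ≫ (𝟙 N - p) ≫ i)).hom *
        ((2 : K)⁻¹ • (1 - sgn R M)) = 0
      rw [mul_assoc, e, ← mul_assoc, pm_zero, zero_mul]
    have b3 : m' = 0 := by
      apply b2
      rw [Functor.map_comp, ModuleCat.hom_comp, hp']
      have e : (R'.H.map (i ≫ P ≫ r)).hom * ((2 : K')⁻¹ • (1 + sgn R' N)) =
          ((2 : K')⁻¹ • (1 + sgn R' N)) * (R'.H.map (i ≫ P ≫ r)).hom := by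
        rw [mul_smul_comm, smul_mul_assoc, mul_add, add_mul, hom_par_comm, mul_one, one_mul]
      change ((2 : K')⁻¹ • (1 - sgn R' N)) * (R'.H.map (i ≫ P ≫ r)).hom *
        ((2 : K')⁻¹ • (1 + sgn R' N)) = 0
      rw [mul_assoc, e, ← mul_assoc, mp_zero, zero_mul]
    have hs : str R ((r ≫ (𝟙 N - p) ≫ i) ≫ P) = str R ((i ≫ P ≫ r) ≫ (𝟙 N - p)) := by
      have e1 : (r ≫ (𝟙 N - p) ≫ i) ≫ P = r ≫ ((𝟙 N - p) ≫ i ≫ P) := by
        simp only [Category.assoc]
      have e2 : ((𝟙 N - p) ≫ i ≫ P) ≫ r = (𝟙 N - p) ≫ (i ≫ P ≫ r) := by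
        simp only [Category.assoc]
      rw [e1, str_comm, e2, str_comm]
    obtain ⟨q, hq1, hq2⟩ := str_rat R hunit R' ((i ≫ P ≫ r) ≫ (𝟙 N - p))
    rw [a3, hs, hq1] at a1
    rw [b3, hq2] at b1
    have c1 : q = (m : ℚ) := by
      have : ((q : ℚ) : K) = ((m : ℚ) : K) := by rw [a1]; push_cast; ring
      exact_mod_cast this
    have c2 : q = -(k' : ℚ) := by
      have : ((q : ℚ) : K') = ((-(k' : ℚ) : ℚ) : K') := by rw [b1]; push_cast; ring
      exact_mod_cast this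
    have c3 : q = 0 := by
      have h5 : (0 : ℚ) ≤ m := Nat.cast_nonneg m
      have h6 : (0 : ℚ) ≤ k' := Nat.cast_nonneg k'
      linarith
    rw [hs, hq1, c3, Rat.cast_zero]
  · obtain ⟨-, h1, h2⟩ := cross_aux R hunit h ip cp (compl_idem R hunit iP) (compl_comm R hunit cP)
    obtain ⟨m, k, a1, -, -, -, a2⟩ := idem_str' R hunit h1
    obtain ⟨m', k', b1, -, -, b2, -⟩ := idem_str' R' hunit h2
    have a3 : m = 0 := by
      apply a2
      rw [Functor.map_comp, ModuleCat.hom_comp, hP']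
      have e : (R.H.map (r ≫ p ≫ i)).hom * ((2 : K)⁻¹ • (1 + sgn R M)) =
          ((2 : K)⁻¹ • (1 + sgn R M)) * (R.H.map (r ≫ p ≫ i)).hom := by
        rw [mul_smul_comm, smul_mul_assoc, mul_add, add_mul, hom_par_comm, mul_one, one_mul]
      change ((2 : K)⁻¹ • (1 - sgn R M)) * (R.H.map (r ≫ p ≫ i)).hom *
        ((2 : K)⁻¹ • (1 + sgn R M)) = 0
      rw [mul_assoc, e, ← mul_assoc, mp_zero, zero_mul]
    have b3 : k' = 0 := by
      apply b2
      rw [Functor.map_comp, ModuleCat.hom_comp, hp]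
      have e : (R'.H.map (i ≫ (𝟙 M - P) ≫ r)).hom * ((2 : K')⁻¹ • (1 - sgn R' N)) =
          ((2 : K')⁻¹ • (1 - sgn R' N)) * (R'.H.map (i ≫ (𝟙 M - P) ≫ r)).hom := by
        rw [mul_smul_comm, smul_mul_assoc, mul_sub, sub_mul, hom_par_comm, mul_one, one_mul]
      change ((2 : K')⁻¹ • (1 + sgn R' N)) * (R'.H.map (i ≫ (𝟙 M - P) ≫ r)).hom *
        ((2 : K')⁻¹ • (1 - sgn R' N)) = 0
      rw [mul_assoc, e, ← mul_assoc, pm_zero, zero_mul]
    have hs : str R ((r ≫ p ≫ i) ≫ (𝟙 M - P)) = str R ((i ≫ (𝟙 M - P) ≫ r) ≫ p) := by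
      have e1 : (r ≫ p ≫ i) ≫ (𝟙 M - P) = r ≫ (p ≫ i ≫ (𝟙 M - P)) := by
        simp only [Category.assoc]
      have e2 : (p ≫ i ≫ (𝟙 M - P)) ≫ r = p ≫ (i ≫ (𝟙 M - P) ≫ r) := by
        simp only [Category.assoc]
      rw [e1, str_comm, e2, str_comm]
    obtain ⟨q, hq1, hq2⟩ := str_rat R hunit R' ((i ≫ (𝟙 M - P) ≫ r) ≫ p)
    rw [a3, hs, hq1] at a1
    rw [b3, hq2] at b1
    have c1 : q = -(k : ℚ) := by
      have : ((q : ℚ) : K) = ((-(k : ℚ) : ℚ) : K) := by rw [a1]; push_cast; ring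
      exact_mod_cast this
    have c2 : q = (m' : ℚ) := by
      have : ((q : ℚ) : K') = ((m' : ℚ) : K') := by rw [b1]; push_cast; ring
      exact_mod_cast this
    have c3 : q = 0 := by
      have h5 : (0 : ℚ) ≤ m' := Nat.cast_nonneg m'
      have h6 : (0 : ℚ) ≤ k := Nat.cast_nonneg k
      linarith
    rw [hs, hq1, c3, Rat.cast_zero]

end

end Pool.Agent.Q154.NS
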