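import Pool.Agent.Q259.NCSign.Lin

/-! An operator on a super vector space whose powers all have the same supertrace. -/

open Polynomial

set_option linter.unusedSectionVars false

namespace Pool.Agent.Q154.NS

open Pool.Agent.Q259.NCSign

variable {K V : Type*} [Field K] [CharZero K] [AddCommGroup V] [Module K V] [Module.Finite K V]

theorem idem_trace_le {f g : Module.End K V} (hf : f * f = f) (hg : g * g = g)
    (hc : Commute f g) :
    ∃ n : ℕ, LinearMap.trace K V (f * g) = n ∧
      n ≤ Module.finrank K (LinearMap.range g) := by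
  have hfg : (f * g) * (f * g) = f * g := by
    rw [mul_assoc, ← mul_assoc g, ← hc.eq, mul_assoc, hg, ← mul_assoc, hf]
  have hp : LinearMap.IsProj (LinearMap.range (f * g)) (f * g) := by
    refine ⟨fun x => LinearMap.mem_range_self _ x, ?_⟩
    rintro _ ⟨y, rfl⟩
    exact LinearMap.congr_fun hfg y
  refine ⟨Module.finrank K (LinearMap.range (f * g)), hp.trace, ?_⟩
  apply Submodule.finrank_mono
  rintro _ ⟨y, rfl⟩
  rw [hc.eq]
  exact ⟨f y, rfl⟩

/-- The common supertrace of the powers is a difference of two numbers, at most the dimensions of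
the even and the odd part. -/
theorem const_trace {ε T : Module.End K V} (hε : ε * ε = 1) (hT : ε * T = T * ε) {p : K}
    (h : ∀ m : ℕ, 1 ≤ m → LinearMap.trace K V (T ^ m * ε) = p) :
    ∃ m n : ℕ, p = (m : K) - n ∧
      m ≤ Module.finrank K (LinearMap.range ((2 : K)⁻¹ • (1 + ε) : Module.End K V)) ∧
      n ≤ Module.finrank K (LinearMap.range ((2 : K)⁻¹ • (1 - ε) : Module.End K V)) ∧
      (T * ((2 : K)⁻¹ • (1 - ε)) = 0 → n = 0) ∧
      (T * ((2 : K)⁻¹ • (1 + ε)) = 0 → m = 0) := by
  have h2 : (2 : K) ≠ 0 := two_ne_zero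
  have hint : IsIntegral K T := Algebra.IsIntegral.isIntegral T
  obtain ⟨f, hf, hf1⟩ := exists_eq_pow_rootMultiplicity_mul_and_not_dvd (minpoly K T)
    (minpoly.ne_zero hint) 1
  set b := rootMultiplicity 1 (minpoly K T)
  set B : K[X] := (X - C 1) ^ (b + 1) with hB
  have hF : aeval T (B * (X * f)) = 0 := by
    have : B * (X * f) = minpoly K T * (X * (X - C 1)) := by
      rw [hf, hB]; ring
    rw [this, map_mul, minpoly.aeval, zero_mul]
  have hdvd : ∀ P : K[X], B * (X * f) ∣ P → aeval T P = 0 := by
    rintro _ ⟨Q, rfl⟩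
    rw [map_mul, hF, zero_mul]
  have c1 : IsCoprime (X - C (1 : K)) X := ⟨-1, 1, by rw [C_1]; ring⟩
  have c2 : IsCoprime (X - C (1 : K)) f :=
    (Irreducible.coprime_iff_not_dvd (irreducible_X_sub_C 1)).2 hf1
  have cB : IsCoprime B (X * f) := (c1.mul_right c2).pow_left
  obtain ⟨u, v, huv⟩ := cB
  set P1 : K[X] := v * (X * f) with hP1
  set e1 := aeval T P1 with he1
  have hP1' : 1 - P1 = u * B := by rw [← huv]; ring
  have i1 : e1 * e1 = e1 := by
    rw [← sub_eq_zero, he1, ← map_mul, ← map_sub]
    apply hdvd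
    have : P1 * P1 - P1 = -(P1 * (1 - P1)) := by ring
    rw [this, hP1', hP1]
    exact ⟨-(v * u), by ring⟩
  have hcomm : ∀ P : K[X], Commute ε (aeval T P) := by
    intro P
    have hT' : Commute ε T := hT
    induction P using Polynomial.induction_on' with
    | add P Q hP hQ => rw [map_add]; exact hP.add_right hQ
    | monomial n a =>
      rw [aeval_monomial]
      exact (Algebra.commute_algebraMap_right a ε).mul_right (hT'.pow_right n)
  set π : Module.End K V := (2 : K)⁻¹ • (1 + ε) with hπ
  set π' : Module.End K V := (2 : K)⁻¹ • (1 - ε) with hπ'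
  have hππ : π * π = π := by
    rw [hπ, smul_mul_smul_comm, mul_add, add_mul, add_mul, hε]
    simp only [one_mul, mul_one]
    have : (1 + ε + (ε + 1) : Module.End K V) = (2 : K) • (1 + ε) := by
      rw [two_smul]; abel
    rw [this, smul_smul]
    congr 1
    field_simp
  have hππ' : π' * π' = π' := by
    rw [hπ', smul_mul_smul_comm, mul_sub, sub_mul, sub_mul, hε]
    simp only [one_mul, mul_one]
    have : (1 - ε - (ε - 1) : Module.End K V) = (2 : K) • (1 - ε) := by
      rw [two_smul]; abel
    rw [this, smul_smul]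
    congr 1
    field_simp
  have hεπ : π - π' = ε := by
    rw [hπ, hπ', ← smul_sub]
    have : (1 + ε - (1 - ε) : Module.End K V) = (2 : K) • ε := by
      rw [two_smul]; abel
    rw [this, smul_smul, inv_mul_cancel₀ h2, one_smul]
  have cπ : ∀ P : K[X], Commute π (aeval T P) := fun P =>
    ((Commute.one_left _).add_left (hcomm P)).smul_left _
  have cπ' : ∀ P : K[X], Commute π' (aeval T P) := fun P =>
    ((Commute.one_left _).sub_left (hcomm P)).smul_left _
  have t1 : LinearMap.trace K V (e1 * ε) = p := by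
    have hX : P1 = X * (v * f) := by rw [hP1]; ring
    have h1 := trace_poly h (v * f)
    rw [← hX] at h1
    have h3 : (v * f).eval 1 = 1 := by
      have h4 := congrArg (fun P : K[X] => P.eval 1) hP1'
      simp only [eval_sub, eval_one, hX, eval_mul, eval_X, one_mul, hB, eval_pow, eval_C,
        sub_self] at h4
      rw [zero_pow (by omega), mul_zero, sub_eq_zero] at h4
      simp only [eval_mul]
      exact h4.symm
    rw [h3, mul_one] at h1
    exact h1
  obtain ⟨m, hm, hm'⟩ := idem_trace_le i1 hππ (cπ P1).symm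
  obtain ⟨n, hn, hn'⟩ := idem_trace_le i1 hππ' (cπ' P1).symm
  have hz : ∀ ρ : Module.End K V, T * ρ = 0 → e1 * ρ = 0 := by
    intro ρ hρ
    have : e1 = aeval T (v * f) * T := by
      rw [he1, hP1, show v * (X * f) = (v * f) * X by ring, map_mul (aeval T) (v * f) X, aeval_X]
    rw [this, mul_assoc, hρ, mul_zero]
  refine ⟨m, n, ?_, hm', hn', ?_, ?_⟩
  · rw [← t1, ← hm, ← hn, ← map_sub, ← mul_sub, hεπ]
  · intro h0
    rw [hz _ h0, map_zero] at hn
    exact_mod_cast hn.symm
  · intro h0
    rw [hz _ h0, map_zero] at hm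
    exact_mod_cast hm.symm

end Pool.Agent.Q154.NS
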