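import Mathlib

/-! Linear algebra: the trace form of an algebra of even operators on a super vector space. -/

set_option autoImplicit false

namespace Pool.Agent.Q154.NS

universe w

variable {K : Type*} {V : Type w} [Field K] [AddCommGroup V] [Module K V] [Module.Finite K V]

lemma sq_bound {a b d : ℕ} (h2 : a < b) (h3 : b ≤ d) :
    a * a + (d - b) * (d - b) ≤ (d - 1) ^ 2 := by
  obtain ⟨t, rfl⟩ : ∃ t, d = b + t := ⟨d - b, by omega⟩
  obtain ⟨s, rfl⟩ : ∃ s, b = a + 1 + s := ⟨b - (a + 1), by omega⟩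
  have h4 : a + 1 + s + t - (a + 1 + s) = t := by omega
  have h5 : a + 1 + s + t - 1 = a + s + t := by omega
  rw [h4, h5]
  nlinarith [Nat.zero_le a, Nat.zero_le s, Nat.zero_le t, Nat.zero_le (a * t),
    Nat.zero_le (a * s), Nat.zero_le (s * t), Nat.zero_le (s * s)]

/-- The trace of `c` on the image of `p` is its trace on the stable subspace `N`, if `c` kills the
part of `N` in the kernel of `p` and maps the image of `p` into the image of `N`. -/
theorem trace_side {p c : Module.End K V} (hp : p * p = p) (hc : c * p = p * c)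
    {N : Submodule K V} (hN : ∀ x ∈ N, c x ∈ N) (h0 : ∀ x ∈ N, p x = 0 → c x = 0)
    (h1 : ∀ x, c (p x) ∈ N.map p) :
    LinearMap.trace K V (c * p) = LinearMap.trace K N (c.restrict hN) := by
  set U := N.map p with hU
  have hcp : ∀ x, c (p x) = p (c x) := fun x => LinearMap.congr_fun hc x
  have hpp : ∀ x, p (p x) = p x := fun x => LinearMap.congr_fun hp x
  have hmem : ∀ x, (c * p) x ∈ U := h1
  have e1 := LinearMap.trace_restrict_eq_of_forall_mem U (c * p) hmem
  rw [← e1]
  -- the map from `N` onto `U`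
  let π : N →ₗ[K] U := p.restrict fun x hx => ⟨x, hx, rfl⟩
  have hπ : Function.Surjective π := by
    rintro ⟨_, x, hx, rfl⟩
    exact ⟨⟨x, hx⟩, rfl⟩
  obtain ⟨σ, hσ⟩ := LinearMap.exists_rightInverse_of_surjective π (LinearMap.range_eq_top.2 hπ)
  have hσ' : ∀ u, π (σ u) = u := fun u => LinearMap.congr_fun hσ u
  set cN : Module.End K N := c.restrict hN with hcN
  let g : U →ₗ[K] N := cN ∘ₗ σ
  have hg : cN = g ∘ₗ π := by
    apply LinearMap.ext
    intro x
    have h2 : cN (x - σ (π x)) = 0 := by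
      apply Subtype.ext
      change c ((x - σ (π x) : N) : V) = 0
      apply h0 _ (x - σ (π x) : N).2
      have h3 : π (x - σ (π x)) = 0 := by rw [map_sub, hσ', sub_self]
      exact congrArg Subtype.val h3
    rw [map_sub, sub_eq_zero] at h2
    exact h2
  have hU' : (c * p).restrict (fun x _ => hmem x) = π ∘ₗ g := by
    apply LinearMap.ext
    intro u
    apply Subtype.ext
    have h3 : (u : V) = p (σ u : V) := by
      have := congrArg Subtype.val (hσ' u)
      exact this.symm
    change c (p (u : V)) = p (c (σ u : V))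
    rw [← hcp, ← h3, h3, hpp]
  rw [hU', hg]
  exact LinearMap.trace_comp_comm' _ _

/-- The operators on the two pieces of a filtration of the image of `p`. -/
theorem exists_blocks {p : Module.End K V} (hp : p * p = p) {N : Submodule K V} {z : V}
    (hz : z ∈ N) (hz' : p z ∉ N) :
    ∃ (W : Type w) (_ : AddCommGroup W) (_ : Module K W) (_ : Module.Finite K W)
      (Φ : Module.End K V →ₗ[K] W),
      Module.finrank K W ≤ (Module.finrank K (LinearMap.range p) - 1) ^ 2 ∧
      ∀ c : Module.End K V, c * p = p * c → (∀ x ∈ N, c x ∈ N) → Φ c = 0 →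
        (∀ x ∈ N, p x = x → c x = 0) ∧ ∀ x, c (p x) ∈ N.map p := by
  have hpp : ∀ x, p (p x) = p x := fun x => LinearMap.congr_fun hp x
  set V' := LinearMap.range p with hV'
  have hV : ∀ x, x ∈ V' ↔ p x = x := fun x => ⟨by rintro ⟨y, rfl⟩; exact hpp y, fun h => ⟨x, h⟩⟩
  set N' := N ⊓ V' with hN'
  set U := N.map p with hU
  have hUV : U ≤ V' := by
    rintro _ ⟨x, -, rfl⟩
    exact ⟨x, rfl⟩
  have hNU : N' < U := by
    refine lt_of_le_of_ne ?_ ?_
    · rintro x ⟨h1, h2⟩
      exact ⟨x, h1, (hV x).1 h2⟩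
    · intro h
      have h1 : p z ∈ U := ⟨z, hz, rfl⟩
      rw [← h] at h1
      exact hz' h1.1
  -- the two retractions
  obtain ⟨q, hq⟩ := LinearMap.exists_leftInverse_of_injective N'.subtype
    (Submodule.ker_subtype N')
  obtain ⟨ρ, hρ⟩ := LinearMap.exists_leftInverse_of_injective V'.subtype
    (Submodule.ker_subtype V')
  set U' : Submodule K V' := U.comap V'.subtype with hU'
  obtain ⟨σ, hσ⟩ := LinearMap.exists_rightInverse_of_surjective U'.mkQ (Submodule.range_mkQ U')
  have hq' : ∀ x : N', q x = x := fun x => LinearMap.congr_fun hq x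
  have hρ' : ∀ x : V', ρ x = x := fun x => LinearMap.congr_fun hρ x
  have hσ' : ∀ x, U'.mkQ (σ x) = x := fun x => LinearMap.congr_fun hσ x
  let Φ : Module.End K V →ₗ[K] ((N' →ₗ[K] N') × ((V' ⧸ U') →ₗ[K] (V' ⧸ U'))) :=
    { toFun := fun c => (q ∘ₗ c ∘ₗ N'.subtype, U'.mkQ ∘ₗ ρ ∘ₗ c ∘ₗ V'.subtype ∘ₗ σ)
      map_add' := fun c c' => by
        ext x <;> simp
      map_smul' := fun a c => by
        ext x <;> simp }
  refine ⟨(N' →ₗ[K] N') × ((V' ⧸ U') →ₗ[K] (V' ⧸ U')), inferInstance, inferInstance,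
    inferInstance, Φ, ?_, ?_⟩
  · rw [Module.finrank_prod, Module.finrank_linearMap, Module.finrank_linearMap,
      Submodule.finrank_quotient]
    have h1 : Module.finrank K U' = Module.finrank K U := by
      have : U'.map V'.subtype = U := by
        rw [hU', Submodule.map_comap_subtype]
        exact inf_eq_right.2 hUV
      rw [← this]
      exact (LinearEquiv.finrank_eq (Submodule.equivMapOfInjective V'.subtype
        V'.injective_subtype U'))
    have h2 := Submodule.finrank_lt_finrank_of_lt hNU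
    have h3 := Submodule.finrank_mono hUV
    rw [h1]
    exact sq_bound h2 h3
  · intro c hc hcN h0
    have hcp : ∀ x, c (p x) = p (c x) := fun x => LinearMap.congr_fun hc x
    have h01 : q ∘ₗ c ∘ₗ N'.subtype = 0 := congrArg Prod.fst h0
    have h02 : U'.mkQ ∘ₗ ρ ∘ₗ c ∘ₗ V'.subtype ∘ₗ σ = 0 := congrArg Prod.snd h0
    constructor
    · intro x hx hpx
      have hxN : x ∈ N' := ⟨hx, (hV x).2 hpx⟩
      have hcx : c x ∈ N' := ⟨hcN x hx, (hV _).2 (by rw [← hcp, hpx])⟩
      have h1 := LinearMap.congr_fun h01 ⟨x, hxN⟩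
      change q (c x) = 0 at h1
      have h2 := hq' ⟨c x, hcx⟩
      rw [h1] at h2
      exact (congrArg Subtype.val h2).symm
    · intro x
      have hxV : p x ∈ V' := ⟨x, rfl⟩
      set v : V' := ⟨p x, hxV⟩ with hv
      have hu : v - σ (U'.mkQ v) ∈ U' := by
        rw [← Submodule.Quotient.mk_eq_zero, ← Submodule.mkQ_apply, map_sub, hσ', sub_self]
      have hu' : ((v - σ (U'.mkQ v) : V') : V) ∈ U := hu
      obtain ⟨n, hn, hn'⟩ := hu'
      have h1 : c ((v - σ (U'.mkQ v) : V') : V) ∈ U := by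
        rw [← hn', hcp]
        exact ⟨c n, hcN n hn, rfl⟩
      have hcV : c (σ (U'.mkQ v) : V) ∈ V' := by
        rw [hV, ← hcp, (hV _).1 (σ (U'.mkQ v)).2]
      have h2 := LinearMap.congr_fun h02 (U'.mkQ v)
      change U'.mkQ (ρ (c (σ (U'.mkQ v) : V))) = 0 at h2
      rw [hρ' ⟨_, hcV⟩, Submodule.mkQ_apply, Submodule.Quotient.mk_eq_zero] at h2
      have h3 : c (σ (U'.mkQ v) : V) ∈ U := h2
      have h4 : c (p x) = c ((v - σ (U'.mkQ v) : V') : V) + c (σ (U'.mkQ v) : V) := by
        rw [← map_add]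
        congr 1
        change p x = (p x - σ (U'.mkQ v)) + σ (U'.mkQ v)
        abel
      rw [h4]
      exact U.add_mem h1 h3

end Pool.Agent.Q154.NS
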