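import Pool.Agent.Q154.NS.Num
import Pool.Agent.Q154.NS.ManyLin

/-! Many numerical endomorphisms imply the sign conjecture. -/

set_option autoImplicit false
set_option linter.unusedSectionVars false
set_option linter.unusedSimpArgs false
set_option linter.unusedVariables false
set_option backward.isDefEq.respectTransparency false
set_option backward.defeqAttrib.useBackward true

open CategoryTheory Limits MonoidalCategory
open Pool.Agent.Y112.SR Pool.Agent.Q259.NCSign

namespace Pool.Agent.Q154.NS

universe v u w w'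

section

variable {C : Type u} [Category.{v} C] [Preadditive C] [Linear ℚ C] [MonoidalCategory C]
  [SymmetricCategory C] [RightRigidCategory C] {K : Type w} [Field K] (R : SuperRealisation C K)

lemma str_smul' {M : C} (q : ℚ) (f : M ⟶ M) : str R (q • f) = (q : K) * str R f := by
  have hK := R_charZero R
  rw [str, R_smul, Linear.smul_comp]
  change LinearMap.trace K (R.H.obj M) ((q : K) • (R.H.map f ≫ R.par M).hom) = _
  rw [map_smul, smul_eq_mul]
  rfl

lemma str_sum' {M : C} {ι : Type*} (s : Finset ι) (f : ι → (M ⟶ M)) :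
    str R (∑ i ∈ s, f i) = ∑ i ∈ s, str R (f i) := str_sum R s f

lemma str_mul_op {M : C} (f g : M ⟶ M) :
    str R (g ≫ f) = LinearMap.trace K (R.H.obj M) (sgn R M * ((R.H.map f).hom * (R.H.map g).hom)) := by
  rw [str, Functor.map_comp]
  rfl

variable (hunit : ∀ c : 𝟙_ C ⟶ 𝟙_ C, ∃ q : ℚ, c = q • 𝟙 _)
include hunit

theorem many_main {M : C} (hnot : ¬ R.CPlus M) {n : ℕ} (f : Fin n → (M ⟶ M))
    (hf : ∀ a : Fin n → ℚ, NumTrivial (∑ k, a k • f k) → a = 0) :
    n ≤ (evd R M - 1) ^ 2 + (odd R M - 1) ^ 2 := by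
  have hK := R_charZero R
  have h0 := R.finite M
  have h2 : (2 : K) ≠ 0 := two_ne_zero
  have hnsep : ¬ Pool.Agent.Q259.NCSign.Separates R M := fun h =>
    hnot (((cplus_tfae R hunit M).out 0 2).2 h)
  rw [Pool.Agent.Q259.NCSign.Separates] at hnsep
  push Not at hnsep
  obtain ⟨x, y, hx, hy, hxy⟩ := hnsep
  set s := sgn R M with hs
  set B := Submodule.span K (ops R M) with hB
  have hss : s * s = 1 := sgn_sq R M
  have hcomm : ∀ c ∈ B, s * c = c * s := fun c hc => sgn_comm_span R hc
  set p : Module.End K (R.H.obj M) := (2 : K)⁻¹ • (1 + s) with hp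
  set p' : Module.End K (R.H.obj M) := (2 : K)⁻¹ • (1 - s) with hp'
  have hpa : ∀ z, p z = (2 : K)⁻¹ • (z + s z) := fun z => rfl
  have hpa' : ∀ z, p' z = (2 : K)⁻¹ • (z - s z) := fun z => rfl
  have hssa : ∀ z, s (s z) = z := fun z => LinearMap.congr_fun hss z
  have hsp : ∀ z, s (p z) = p z := fun z => by
    rw [hpa, map_smul, map_add, hssa, add_comm]
  have hsp' : ∀ z, s (p' z) = -p' z := fun z => by
    rw [hpa', map_smul, map_sub, hssa, ← smul_neg, neg_sub]
  have hfix : ∀ z, s z = z → p z = z := fun z hz => by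
    rw [hpa, hz, ← two_smul K, smul_smul, inv_mul_cancel₀ h2, one_smul]
  have hfix' : ∀ z, s z = -z → p' z = z := fun z hz => by
    rw [hpa', hz, sub_neg_eq_add, ← two_smul K, smul_smul, inv_mul_cancel₀ h2, one_smul]
  have hkill : ∀ z, s z = -z → p z = 0 := fun z hz => by
    rw [hpa, hz, add_neg_cancel, smul_zero]
  have hkill' : ∀ z, s z = z → p' z = 0 := fun z hz => by
    rw [hpa', hz, sub_self, smul_zero]
  have hadd : ∀ z, p z + p' z = z := fun z => by
    rw [hpa, hpa', ← smul_add]
    have : z + s z + (z - s z) = (2 : K) • z := by rw [two_smul]; abel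
    rw [this, smul_smul, inv_mul_cancel₀ h2, one_smul]
  have hpp : p * p = p := LinearMap.ext fun z => hfix _ (hsp z)
  have hpp' : p' * p' = p' := LinearMap.ext fun z => hfix' _ (hsp' z)
  have hcp : ∀ c ∈ B, c * p = p * c := fun c hc => by
    rw [hp, mul_smul_comm, smul_mul_assoc, mul_add, add_mul, hcomm c hc, mul_one, one_mul]
  have hcp' : ∀ c ∈ B, c * p' = p' * c := fun c hc => by
    rw [hp', mul_smul_comm, smul_mul_assoc, mul_sub, sub_mul, hcomm c hc, mul_one, one_mul]
  -- the cyclic submodule
  set N : Submodule K (R.H.obj M) := B.map (LinearMap.applyₗ (x + y)) with hN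
  have hNst : ∀ c ∈ B, ∀ z ∈ N, c z ∈ N := by
    rintro c hc _ ⟨b, hb, rfl⟩
    exact ⟨c * b, mul_mem_span R hc hb, rfl⟩
  have hzN : x + y ∈ N := ⟨1, Submodule.subset_span (one_mem_ops R M), rfl⟩
  have hpz : p (x + y) = x := by rw [map_add, hfix x hx, hkill y hy, add_zero]
  have hpz' : p' (x + y) = y := by rw [map_add, hkill' x hx, hfix' y hy, zero_add]
  have hxN : x ∉ N := by
    rintro ⟨P, hP, hPx⟩
    have e0 : P (x + y) = x := hPx
    have e1 : P x = x := by
      have := LinearMap.congr_fun (hcp P hP) (x + y)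
      rw [Module.End.mul_apply, Module.End.mul_apply, hpz, e0, hfix x hx] at this
      exact this
    apply hxy P hP e1
    rw [map_add, e1] at e0
    exact add_eq_left.1 e0
  have hyN : y ∉ N := fun h => hxN (by
    have := N.sub_mem hzN h
    rwa [add_sub_cancel_right] at this)
  obtain ⟨W₁, i1, i2, i3, Φ₁, hd₁, hΦ₁⟩ := exists_blocks hpp hzN (by rw [hpz]; exact hxN)
  obtain ⟨W₂, j1, j2, j3, Φ₂, hd₂, hΦ₂⟩ := exists_blocks hpp' hzN (by rw [hpz']; exact hyN)
  -- the supertrace vanishes
  have hzero : ∀ c ∈ B, (∀ z ∈ N, p z = z → c z = 0) → (∀ z, c (p z) ∈ N.map p) →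
      (∀ z ∈ N, p' z = z → c z = 0) → (∀ z, c (p' z) ∈ N.map p') →
      LinearMap.trace K (R.H.obj M) (s * c) = 0 := by
    intro c hc a1 a2 b1 b2
    have e1 := trace_side hpp (hcp c hc) (hNst c hc) (fun z hz hz0 => b1 z hz (by
      have := hadd z
      rwa [hz0, zero_add] at this)) a2
    have e2 := trace_side hpp' (hcp' c hc) (hNst c hc) (fun z hz hz0 => a1 z hz (by
      have := hadd z
      rwa [hz0, add_zero] at this)) b2
    have e3 : s * c = c * p - c * p' := by
      rw [hcomm c hc, ← mul_sub]
      congr 1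
      rw [hp, hp', ← smul_sub]
      have : (1 + s - (1 - s) : Module.End K (R.H.obj M)) = (2 : K) • s := by
        rw [two_smul]; abel
      rw [this, smul_smul, inv_mul_cancel₀ h2, one_smul]
    rw [e3, map_sub, e1, e2, sub_self]
  -- linear independence
  have hli : LinearIndependent K fun k => (Φ₁ (R.H.map (f k)).hom, Φ₂ (R.H.map (f k)).hom) := by
    rw [Fintype.linearIndependent_iff]
    intro a ha
    set c : Module.End K (R.H.obj M) := ∑ k, a k • (R.H.map (f k)).hom with hc
    have hcB : c ∈ B := Submodule.sum_mem _ fun k _ =>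
      Submodule.smul_mem _ _ (Submodule.subset_span ⟨f k, rfl⟩)
    have hc1 : Φ₁ c = 0 := by
      have := congrArg Prod.fst ha
      rw [hc, map_sum]
      simpa [Prod.fst_sum] using this
    have hc2 : Φ₂ c = 0 := by
      have := congrArg Prod.snd ha
      rw [hc, map_sum]
      simpa [Prod.snd_sum] using this
    obtain ⟨a1, a2⟩ := hΦ₁ c (hcp c hcB) (hNst c hcB) hc1
    obtain ⟨b1, b2⟩ := hΦ₂ c (hcp' c hcB) (hNst c hcB) hc2
    have key : ∀ g : M ⟶ M, ∑ k, a k * str R (g ≫ f k) = 0 := by
      intro g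
      have hgB : (R.H.map g).hom ∈ B := Submodule.subset_span ⟨g, rfl⟩
      have hgp : ∀ z, (R.H.map g).hom (p z) = p ((R.H.map g).hom z) := fun z =>
        LinearMap.congr_fun (hcp _ hgB) z
      have hgp' : ∀ z, (R.H.map g).hom (p' z) = p' ((R.H.map g).hom z) := fun z =>
        LinearMap.congr_fun (hcp' _ hgB) z
      have e1 := hzero (c * (R.H.map g).hom) (mul_mem_span R hcB hgB)
        (fun z hz hz1 => a1 _ (hNst _ hgB z hz) (by rw [← hgp, hz1]))
        (fun z => by
          change c ((R.H.map g).hom (p z)) ∈ _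
          rw [hgp]; exact a2 _)
        (fun z hz hz1 => b1 _ (hNst _ hgB z hz) (by rw [← hgp', hz1]))
        (fun z => by
          change c ((R.H.map g).hom (p' z)) ∈ _
          rw [hgp']; exact b2 _)
      rw [← e1, hc, Finset.sum_mul, Finset.mul_sum, map_sum]
      refine Finset.sum_congr rfl fun k _ => ?_
      rw [smul_mul_assoc, mul_smul_comm, map_smul, smul_eq_mul, str_mul_op]
    -- rational functionals
    have hlam : ∀ lam : K →ₗ[ℚ] ℚ, ∀ k, lam (a k) = 0 := by
      intro lam
      have h3 : (fun k => lam (a k)) = 0 := by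
        apply hf
        rw [numTrivial_iff R hunit]
        intro g
        choose q hq using fun k => hunit (ctr (g ≫ f k))
        have hq' : ∀ k, str R (g ≫ f k) = (q k : K) := fun k =>
          (ctr_eq_iff R hunit (g ≫ f k) (q k)).1 (hq k)
        have h4 := congrArg lam (key g)
        rw [map_sum, map_zero] at h4
        have h5 : ∑ k, q k * lam (a k) = 0 := by
          rw [← h4]
          refine Finset.sum_congr rfl fun k _ => ?_
          have : a k * str R (g ≫ f k) = (q k) • a k := by
            rw [hq', Rat.smul_def, mul_comm]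
          rw [this, map_smul, smul_eq_mul]
        rw [str_comm, Preadditive.comp_sum, str_sum]
        have h6 : ∀ k, str R (g ≫ (lam (a k) • f k)) = ((q k * lam (a k) : ℚ) : K) := by
          intro k
          rw [Linear.comp_smul, str_smul', hq']
          push_cast
          ring
        rw [Finset.sum_congr rfl fun k _ => h6 k, ← Rat.cast_sum, h5, Rat.cast_zero]
      exact fun k => congrFun h3 k
    intro k
    exact (Module.forall_dual_apply_eq_zero_iff ℚ (a k)).1 fun lam => hlam lam k
  have h7 := hli.fintype_card_le_finrank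
  rw [Fintype.card_fin, Module.finrank_prod] at h7
  rw [← evd_eq, ← odd_eq]
  exact h7.trans (Nat.add_le_add hd₁ hd₂)

end

end Pool.Agent.Q154.NS
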