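import Pool.Agent.Q259.NCSign.Crit
import Pool.Agent.Q154.NS.Lin

/-! Numerical equivalence and the sign conjecture in a rigid category with a super realisation. -/

set_option autoImplicit false
set_option linter.unusedSectionVars false
set_option linter.unusedSimpArgs false
set_option backward.isDefEq.respectTransparency false
set_option backward.defeqAttrib.useBackward true

open CategoryTheory Limits MonoidalCategory
open Pool.Agent.Y112.SR Pool.Agent.Q259.NCSign

namespace Pool.Agent.Q154.NS

universe v u w w'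

section

variable {C : Type u} [Category.{v} C] [Preadditive C] [MonoidalCategory C]
  [SymmetricCategory C] [RightRigidCategory C]

/-- A morphism `f : M ⟶ N` is numerically trivial: for every `g : N ⟶ M` the composite has
trace zero. -/
def NumTrivial {M N : C} (f : M ⟶ N) : Prop := ∀ g : N ⟶ M, ctr (f ≫ g) = 0

/-- `e` is a decomposition of the numerical motive of `M`: modulo numerically trivial
endomorphisms the `e i` are orthogonal idempotents with sum the identity. -/
structure NumDecomp (M : C) {n : ℕ} (e : Fin n → (M ⟶ M)) : Prop where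
  orth : ∀ i j, i ≠ j → NumTrivial (e i ≫ e j)
  idem : ∀ i, NumTrivial (e i ≫ e i - e i)
  sum : NumTrivial (∑ i, e i - 𝟙 M)

/-- The direct summand of the numerical motive of `M` given by `e` is not zero, and it is not the
direct sum of two nonzero direct summands. -/
def NumIndec {M : C} (e : M ⟶ M) : Prop :=
  ¬ NumTrivial e ∧ ∀ z : M ⟶ M, NumTrivial (z ≫ z - z) → NumTrivial (e ≫ z ≫ e - z) →
    NumTrivial z ∨ NumTrivial (z - e)

end

section

variable {C : Type u} [Category.{v} C] [Preadditive C] [Linear ℚ C] [MonoidalCategory C]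
  [SymmetricCategory C] [RightRigidCategory C] {K : Type w} [Field K] (R : SuperRealisation C K)

/-- The supertrace of an endomorphism. -/
noncomputable def str {M : C} (f : M ⟶ M) : K :=
  LinearMap.trace K (R.H.obj M) (R.H.map f ≫ R.par M).hom

lemma str_add {M : C} (f g : M ⟶ M) : str R (f + g) = str R f + str R g := by
  rw [str, str, str, Functor.map_add, Preadditive.add_comp, ModuleCat.hom_add, map_add]

lemma str_neg {M : C} (f : M ⟶ M) : str R (-f) = -str R f := by
  rw [str, str, Functor.map_neg, Preadditive.neg_comp, ModuleCat.hom_neg, map_neg]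

lemma str_sub {M : C} (f g : M ⟶ M) : str R (f - g) = str R f - str R g := by
  rw [sub_eq_add_neg, str_add, str_neg, ← sub_eq_add_neg]

lemma str_zero {M : C} : str R (0 : M ⟶ M) = 0 := by
  rw [str, Functor.map_zero, zero_comp, ModuleCat.hom_zero, map_zero]

lemma str_sum {M : C} {ι : Type*} (s : Finset ι) (f : ι → (M ⟶ M)) :
    str R (∑ i ∈ s, f i) = ∑ i ∈ s, str R (f i) := by
  classical
  induction s using Finset.induction_on with
  | empty => simp [str_zero]
  | insert a s ha ih => rw [Finset.sum_insert ha, Finset.sum_insert ha, str_add, ih]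

lemma str_comm {M N : C} (f : M ⟶ N) (g : N ⟶ M) : str R (f ≫ g) = str R (g ≫ f) := by
  have e1 : (R.H.map (f ≫ g) ≫ R.par M).hom =
      (R.H.map g ≫ R.par M).hom ∘ₗ (R.H.map f).hom := by
    rw [Functor.map_comp, Category.assoc]
    rfl
  have e2 : (R.H.map (g ≫ f) ≫ R.par N).hom =
      (R.H.map f).hom ∘ₗ (R.H.map g ≫ R.par M).hom := by
    rw [Functor.map_comp, Category.assoc, R.par_natural]
    rfl
  have := R.finite M
  have := R.finite N
  rw [str, str, e1, e2]
  exact LinearMap.trace_comp_comm' _ _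

variable (hunit : ∀ c : 𝟙_ C ⟶ 𝟙_ C, ∃ q : ℚ, c = q • 𝟙 _)
include R hunit

lemma ctr_eq_iff {M : C} (f : M ⟶ M) (q : ℚ) : ctr f = q • 𝟙 _ ↔ str R f = (q : K) := by
  have hK := R_charZero R
  constructor
  · intro h
    exact trace_of_ctr R h
  · intro h
    obtain ⟨q', hq'⟩ := hunit (ctr f)
    have h1 := trace_of_ctr R hq'
    have h2 : (q' : K) = (q : K) := by rw [← h1]; exact h
    have h3 : q' = q := by exact_mod_cast h2
    rw [hq', h3]

lemma ctr_zero_iff {M : C} (f : M ⟶ M) : ctr f = 0 ↔ str R f = 0 := by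
  have h1 := ctr_eq_iff R hunit f 0
  rw [zero_smul, Rat.cast_zero] at h1
  exact h1

lemma numTrivial_iff {M N : C} (f : M ⟶ N) : NumTrivial f ↔ ∀ g : N ⟶ M, str R (f ≫ g) = 0 :=
  forall_congr' fun g => ctr_zero_iff R hunit (f ≫ g)

lemma nt_zero {M N : C} : NumTrivial (0 : M ⟶ N) := by
  rw [numTrivial_iff R hunit]
  intro g
  rw [zero_comp, str_zero]

lemma nt_add {M N : C} {f g : M ⟶ N} (hf : NumTrivial f) (hg : NumTrivial g) :
    NumTrivial (f + g) := by
  rw [numTrivial_iff R hunit] at *
  intro h
  rw [Preadditive.add_comp, str_add, hf, hg, add_zero]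

lemma nt_neg {M N : C} {f : M ⟶ N} (hf : NumTrivial f) : NumTrivial (-f) := by
  rw [numTrivial_iff R hunit] at *
  intro h
  rw [Preadditive.neg_comp, str_neg, hf, neg_zero]

omit R hunit in
lemma nt_comp {L M N : C} {f : L ⟶ M} (hf : NumTrivial f) (g : M ⟶ N) : NumTrivial (f ≫ g) := by
  intro h
  rw [Category.assoc]
  exact hf _

lemma comp_nt {L M N : C} (g : L ⟶ M) {f : M ⟶ N} (hf : NumTrivial f) : NumTrivial (g ≫ f) := by
  rw [numTrivial_iff R hunit] at *
  intro h
  rw [Category.assoc, str_comm, Category.assoc]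
  exact hf _

/-- The ideal of the numerically trivial endomorphisms. -/
noncomputable def numI (M : C) : TwoSidedIdeal (End M) :=
  TwoSidedIdeal.mk' {z : End M | NumTrivial (show M ⟶ M from z)} (nt_zero R hunit)
    (fun hx hy => nt_add R hunit hx hy) (fun hx => nt_neg R hunit hx)
    (fun {x y} hy => nt_comp hy x) (fun {x y} hx => comp_nt R hunit y hx)

lemma mem_numI {M : C} (z : End M) : z ∈ numI R hunit M ↔ NumTrivial (show M ⟶ M from z) := by
  rw [numI, TwoSidedIdeal.mem_mk']
  rfl

/-- The endomorphisms modulo numerical equivalence. -/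
abbrev NE (M : C) : Type _ := (numI R hunit M).ringCon.Quotient

/-- The class modulo numerical equivalence. -/
noncomputable def cls (M : C) : End M →+* NE R hunit M := (numI R hunit M).ringCon.mk'

lemma cls_eq_iff {M : C} (z z' : End M) : cls R hunit M z = cls R hunit M z' ↔
    NumTrivial (show M ⟶ M from z - z') := by
  rw [← mem_numI R hunit, ← TwoSidedIdeal.rel_iff]
  exact RingCon.eq _

lemma cls_zero_iff {M : C} (z : End M) : cls R hunit M z = 0 ↔
    NumTrivial (show M ⟶ M from z) := by
  rw [← map_zero (cls R hunit M), cls_eq_iff, sub_zero]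

lemma cls_surj (M : C) : Function.Surjective (cls R hunit M) := RingCon.mk'_surjective _

lemma str_congr {M : C} {z z' : End M} (h : cls R hunit M z = cls R hunit M z') :
    str R (show M ⟶ M from z) = str R (show M ⟶ M from z') := by
  rw [cls_eq_iff, numTrivial_iff R hunit] at h
  have h1 := h (𝟙 M)
  rw [Category.comp_id] at h1
  have h2 := str_sub R (show M ⟶ M from z) (show M ⟶ M from z')
  rw [← sub_eq_zero, ← h2]
  exact h1

end

section

variable {C : Type u} [Category.{v} C] [Preadditive C] [Linear ℚ C] [MonoidalCategory C]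
  [SymmetricCategory C] [RightRigidCategory C] {K : Type w} [Field K] (R : SuperRealisation C K)

/-- The dimension of the even part. -/
noncomputable def evd (M : C) : ℕ := Module.finrank K (LinearMap.ker (sgn R M - 1))

/-- The dimension of the odd part. -/
noncomputable def odd (M : C) : ℕ := Module.finrank K (LinearMap.ker (sgn R M + 1))

lemma evd_eq (M : C) : Module.finrank K
    (LinearMap.range ((2 : K)⁻¹ • (1 + sgn R M) : Module.End K (R.H.obj M))) = evd R M := by
  have hK := R_charZero R
  have h2 : (2 : K) ≠ 0 := two_ne_zero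
  have hss : ∀ y, sgn R M (sgn R M y) = y := fun y => LinearMap.congr_fun (sgn_sq R M) y
  have key : LinearMap.range ((2 : K)⁻¹ • (1 + sgn R M) : Module.End K (R.H.obj M)) =
      LinearMap.ker (sgn R M - 1) := by
    ext x
    rw [LinearMap.mem_range, LinearMap.mem_ker, LinearMap.sub_apply, Module.End.one_apply,
      sub_eq_zero]
    constructor
    · rintro ⟨y, rfl⟩
      change sgn R M ((2 : K)⁻¹ • (y + sgn R M y)) = (2 : K)⁻¹ • (y + sgn R M y)
      rw [map_smul, map_add, hss, add_comm y]
    · intro h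
      refine ⟨x, ?_⟩
      change (2 : K)⁻¹ • (x + sgn R M x) = x
      rw [h, ← two_smul K, smul_smul, inv_mul_cancel₀ h2, one_smul]
  rw [evd, key]

lemma odd_eq (M : C) : Module.finrank K
    (LinearMap.range ((2 : K)⁻¹ • (1 - sgn R M) : Module.End K (R.H.obj M))) = odd R M := by
  have hK := R_charZero R
  have h2 : (2 : K) ≠ 0 := two_ne_zero
  have hss : ∀ y, sgn R M (sgn R M y) = y := fun y => LinearMap.congr_fun (sgn_sq R M) y
  have key : LinearMap.range ((2 : K)⁻¹ • (1 - sgn R M) : Module.End K (R.H.obj M)) =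
      LinearMap.ker (sgn R M + 1) := by
    ext x
    rw [LinearMap.mem_range, LinearMap.mem_ker, LinearMap.add_apply, Module.End.one_apply,
      ← eq_neg_iff_add_eq_zero]
    constructor
    · rintro ⟨y, rfl⟩
      change sgn R M ((2 : K)⁻¹ • (y - sgn R M y)) = -((2 : K)⁻¹ • (y - sgn R M y))
      rw [map_smul, map_sub, hss, ← smul_neg, neg_sub]
    · intro h
      refine ⟨x, ?_⟩
      change (2 : K)⁻¹ • (x - sgn R M x) = x
      rw [h, sub_neg_eq_add, ← two_smul K, smul_smul, inv_mul_cancel₀ h2, one_smul]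
  rw [odd, key]

lemma evd_add_odd (M : C) : evd R M + odd R M = Module.finrank K (R.H.obj M) := by
  have hK := R_charZero R
  have h2 : (2 : K) ≠ 0 := two_ne_zero
  have h0 := R.finite M
  have h1 := LinearMap.finrank_range_add_finrank_ker
    ((2 : K)⁻¹ • (1 + sgn R M) : Module.End K (R.H.obj M))
  rw [evd_eq] at h1
  have key : LinearMap.ker (sgn R M + 1) =
      LinearMap.ker ((2 : K)⁻¹ • (1 + sgn R M) : Module.End K (R.H.obj M)) := by
    ext x
    rw [LinearMap.mem_ker, LinearMap.mem_ker]
    change sgn R M x + x = 0 ↔ (2 : K)⁻¹ • (x + sgn R M x) = 0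
    rw [smul_eq_zero, add_comm x]
    constructor
    · intro h
      exact Or.inr h
    · rintro (h | h)
      · exact absurd h (inv_ne_zero h2)
      · exact h
  rw [← h1, odd, key]

lemma str_one (M : C) : str R (𝟙 M) = (evd R M : K) - odd R M := by
  have hK := R_charZero R
  have h2 : (2 : K) ≠ 0 := two_ne_zero
  have h0 := R.finite M
  have e1 : (R.H.map (𝟙 M) ≫ R.par M).hom = sgn R M := by
    rw [CategoryTheory.Functor.map_id, Category.id_comp]
    rfl
  have h1 : LinearMap.trace K (R.H.obj M) (1 : Module.End K (R.H.obj M)) =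
      (evd R M : K) + odd R M := by
    rw [LinearMap.trace_one, ← evd_add_odd R M]
    push_cast
    rfl
  have h3 := trace_half R M
  rw [map_smul, map_add, h1, smul_eq_mul] at h3
  rw [str, e1]
  have h4 : (evd R M : K) = (Module.finrank K (LinearMap.ker (sgn R M - 1)) : K) := rfl
  rw [← h4] at h3
  linear_combination (2 : K) * h3

/-- The powers of `z` have the supertrace `p`. -/
lemma const_str {M : C} {z : End M} {p : K} (h : ∀ m : ℕ, 1 ≤ m →
    str R (show M ⟶ M from (z ^ m : End M)) = p) :
    ∃ m n : ℕ, p = (m : K) - n ∧ m ≤ evd R M ∧ n ≤ odd R M ∧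
      (opHom R M z * ((2 : K)⁻¹ • (1 - sgn R M)) = 0 → n = 0) ∧
      (opHom R M z * ((2 : K)⁻¹ • (1 + sgn R M)) = 0 → m = 0) := by
  have hK := R_charZero R
  have h0 := R.finite M
  have hzo : opHom R M z ∈ ops R M := ⟨z, rfl⟩
  obtain ⟨m, n, h1, h2, h3, h4, h5⟩ := const_trace (sgn_sq R M) (sgn_comm R hzo) (p := p) (by
    intro m hm
    have e3 : opHom R M z ^ m * sgn R M = sgn R M * opHom R M z ^ m :=
      (Commute.pow_right (sgn_comm R hzo) m).symm
    rw [e3, ← map_pow]
    exact h m hm)
  rw [evd_eq] at h2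
  rw [odd_eq] at h3
  exact ⟨m, n, h1, h2, h3, h4, h5⟩

/-- If the powers of `z` have the supertrace `dim` of the even part, `C⁺` holds. -/
lemma cplus_of_str (hunit : ∀ c : 𝟙_ C ⟶ 𝟙_ C, ∃ q : ℚ, c = q • 𝟙 _) {M : C} {z : End M}
    (h : ∀ m : ℕ, 1 ≤ m → str R (show M ⟶ M from (z ^ m : End M)) = (evd R M : K)) :
    R.CPlus M := by
  apply cplus_of_traces R
  refine ⟨z, fun m hm => ?_⟩
  refine (ctr_eq_iff R hunit (show M ⟶ M from (z ^ m : End M)) _).2 ?_
  rw [h m hm, evd]
  push_cast
  rfl

end

end Pool.Agent.Q154.NS
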