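import Pool.Agent.Q154.NS.Iso

/-! Numerical direct sums of objects which satisfy the sign conjecture. -/

set_option autoImplicit false
set_option linter.unusedSectionVars false
set_option linter.unusedSimpArgs false
set_option linter.unusedVariables false
set_option backward.isDefEq.respectTransparency false
set_option backward.defeqAttrib.useBackward true

open CategoryTheory Limits MonoidalCategory
open Pool.Agent.Y112.SR Pool.Agent.Q259.NCSign

namespace Pool.Agent.Q154.NS

universe v u w w'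

lemma orth_sum_idem {A : Type*} [Ring A] {ι : Type*} (s : Finset ι) {E : ι → A}
    (ho : ∀ i j, i ≠ j → E i * E j = 0) (hi : ∀ i, E i * E i = E i) :
    (∑ i ∈ s, E i) * (∑ i ∈ s, E i) = ∑ i ∈ s, E i := by
  rw [Finset.sum_mul_sum]
  refine Finset.sum_congr rfl fun i hi' => ?_
  rw [Finset.sum_eq_single i, hi]
  · intro j _ hj
    exact ho i j hj.symm
  · intro hi''
    exact absurd hi' hi''

section

variable {C : Type u} [Category.{v} C] [Preadditive C] [Linear ℚ C] [MonoidalCategory C]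
  [SymmetricCategory C] [RightRigidCategory C] {K : Type w} [Field K] (R : SuperRealisation C K)
  (hunit : ∀ c : 𝟙_ C ⟶ 𝟙_ C, ∃ q : ℚ, c = q • 𝟙 _)

include R hunit

lemma sum_idem {M : C} {k : ℕ} {N : Fin k → C} {i : ∀ j, N j ⟶ M} {r : ∀ j, M ⟶ N j}
    (h : NumSummands M N i r) (p : ∀ j, N j ⟶ N j) (hp : ∀ j, NumTrivial (p j ≫ p j - p j)) :
    NumTrivial ((∑ j, r j ≫ p j ≫ i j) ≫ (∑ j, r j ≫ p j ≫ i j) - ∑ j, r j ≫ p j ≫ i j) := by
  set s : Fin k → End M := fun j => r j ≫ p j ≫ i j with hs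
  have ho : ∀ a b, a ≠ b → cls R hunit M (s a) * cls R hunit M (s b) = 0 := by
    intro a b hab
    rw [← map_mul, cls_zero_iff]
    have e : (show M ⟶ M from s a * s b) = (r b ≫ p b) ≫ (i b ≫ r a) ≫ (p a ≫ i a) := by
      change (r b ≫ p b ≫ i b) ≫ (r a ≫ p a ≫ i a) = _
      simp only [Category.assoc]
    rw [e]
    exact comp_nt R hunit _ (nt_comp (h.off b a hab.symm) _)
  have hi : ∀ a, cls R hunit M (s a) * cls R hunit M (s a) = cls R hunit M (s a) := by
    intro a
    rw [← map_mul, cls_eq_iff]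
    have e1 : (r a ≫ p a ≫ i a) ≫ (r a ≫ p a ≫ i a) =
        (r a ≫ p a) ≫ (i a ≫ r a) ≫ (p a ≫ i a) := by
      simp only [Category.assoc]
    have e2 : (r a ≫ p a) ≫ (𝟙 (N a)) ≫ (p a ≫ i a) = r a ≫ (p a ≫ p a) ≫ i a := by
      simp only [Category.assoc, Category.id_comp]
    change NumTrivial ((r a ≫ p a ≫ i a) ≫ (r a ≫ p a ≫ i a) - r a ≫ p a ≫ i a)
    rw [e1]
    refine nt_trans R hunit (nt_mid R hunit _ (h.diag a) _) ?_
    rw [e2]
    exact nt_mid R hunit _ (hp a) _
  have h1 := orth_sum_idem Finset.univ ho hi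
  rw [← map_sum, ← map_mul, cls_eq_iff] at h1
  exact h1

lemma str_piece {K' : Type w'} [Field K'] (R' : SuperRealisation C K') {M N : C} {i : N ⟶ M}
    {r : M ⟶ N} (h : NumTrivial (i ≫ r - 𝟙 N)) (a : N ⟶ N) {t : ℤ}
    (ht : str R' a = (t : K')) : str R (r ≫ a ≫ i) = (t : K) := by
  have hK' := R_charZero R'
  have e1 : (a ≫ i) ≫ r = a ≫ (i ≫ r) := Category.assoc _ _ _
  have h1 : str R (r ≫ a ≫ i) = str R a := by
    rw [str_comm, e1]
    apply str_congr' R hunit
    have h2 := nt_left R hunit a h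
    rwa [Category.comp_id] at h2
  obtain ⟨q, hq1, hq2⟩ := str_rat R hunit R' a
  have h3 : q = (t : ℚ) := by
    have : ((q : ℚ) : K') = ((t : ℚ) : K') := by rw [← hq2, ht]; push_cast; rfl
    exact_mod_cast this
  rw [h1, hq1, h3]
  push_cast
  rfl

omit hunit in
lemma str_proj {M : C} {p : M ⟶ M} (hp : (R.H.map p).hom = (2 : K)⁻¹ • (1 + sgn R M)) :
    str R p = (evd R M : K) ∧ str R (𝟙 M - p) = -(odd R M : K) := by
  have h1 : str R p = (evd R M : K) := by
    have h2 := str_op R (M := M) p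
    have h3 : opHom R M p = (2 : K)⁻¹ • (1 + sgn R M) := hp
    rw [h3, mul_smul_comm, mul_add, mul_one, sgn_sq, add_comm, trace_half] at h2
    exact h2
  refine ⟨h1, ?_⟩
  rw [str_sub, str_one, h1]
  ring

/-- **Numerical direct sums.** -/
theorem sum_main {K' : Type w'} [Field K'] (R' : SuperRealisation C K') {M : C} {k : ℕ}
    {N : Fin k → C} {i : ∀ j, N j ⟶ M} {r : ∀ j, M ⟶ N j} (h : NumSummands M N i r)
    (hC : ∀ j, R'.CPlus (N j)) :
    ∑ j, evd R' (N j) ≤ evd R M ∧ ∑ j, odd R' (N j) ≤ odd R M ∧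
    (∑ j, evd R' (N j) = evd R M → R.CPlus M) ∧
    (NumTrivial (∑ j, r j ≫ i j - 𝟙 M) → R.CPlus M →
      ∑ j, evd R' (N j) = evd R M ∧ ∑ j, odd R' (N j) = odd R M) := by
  have hK := R_charZero R
  have hK' := R_charZero R'
  choose p hp hp' using fun j => cplus_data R' (hC j)
  have ip := fun j => proj_idem R' hunit (hp j)
  have ip' := fun j => compl_idem R' hunit (ip j)
  have s1 : ∀ j, str R (r j ≫ p j ≫ i j) = (evd R' (N j) : K) := by
    intro j
    have h1 := str_piece R hunit R' (h.diag j) (p j) (t := (evd R' (N j) : ℤ)) (by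
      rw [(str_proj R' (hp j)).1]; push_cast; rfl)
    rw [h1]
    push_cast
    rfl
  have s2 : ∀ j, str R (r j ≫ (𝟙 (N j) - p j) ≫ i j) = -(odd R' (N j) : K) := by
    intro j
    have h1 := str_piece R hunit R' (h.diag j) (𝟙 (N j) - p j) (t := -(odd R' (N j) : ℤ)) (by
      rw [(str_proj R' (hp j)).2]; push_cast; rfl)
    rw [h1]
    push_cast
    rfl
  have z1 := sum_idem R hunit h p ip
  have z2 := sum_idem R hunit h (fun j => 𝟙 (N j) - p j) ip'
  have t1 : str R (∑ j, r j ≫ p j ≫ i j) = ((∑ j, evd R' (N j) : ℕ) : K) := by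
    rw [str_sum, Finset.sum_congr rfl fun j _ => s1 j]
    push_cast
    rfl
  have t2 : str R (∑ j, r j ≫ (𝟙 (N j) - p j) ≫ i j) = -((∑ j, odd R' (N j) : ℕ) : K) := by
    rw [str_sum, Finset.sum_congr rfl fun j _ => s2 j, Finset.sum_neg_distrib]
    push_cast
    rfl
  obtain ⟨m, n, a1, a2, a3, -⟩ := idem_str' R hunit z1
  obtain ⟨m', n', b1, b2, b3, -⟩ := idem_str' R hunit z2
  rw [t1] at a1
  rw [t2] at b1
  have c1 : ((∑ j, evd R' (N j) : ℕ) : ℤ) = (m : ℤ) - n := by
    have : (((∑ j, evd R' (N j) : ℕ) : ℤ) : K) = (((m : ℤ) - n : ℤ) : K) := by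
      rw [Int.cast_natCast, a1]; push_cast; rfl
    exact_mod_cast this
  have c2 : -((∑ j, odd R' (N j) : ℕ) : ℤ) = (m' : ℤ) - n' := by
    have : ((-((∑ j, odd R' (N j) : ℕ) : ℤ) : ℤ) : K) = (((m' : ℤ) - n' : ℤ) : K) := by
      rw [Int.cast_neg, Int.cast_natCast, b1]; push_cast; rfl
    exact_mod_cast this
  refine ⟨by omega, by omega, ?_, ?_⟩
  · intro h1
    apply cplus_of_idem R hunit (z := ∑ j, r j ≫ p j ≫ i j)
    · rw [← map_mul, cls_eq_iff]
      exact z1
    · rw [← h1]
      exact t1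
  · intro hfull hCM
    obtain ⟨P, hP, hP'⟩ := cplus_data R hCM
    have hx := fun j => cross_zero R hunit R' (h.diag j) hP hP' (hp j) (hp' j)
    have e1 : ∀ j, str R ((r j ≫ i j) ≫ P) = (evd R' (N j) : K) := by
      intro j
      have e2 : (r j ≫ i j) ≫ P =
          (r j ≫ p j ≫ i j) ≫ P + (r j ≫ (𝟙 (N j) - p j) ≫ i j) ≫ P := by
        rw [← Preadditive.add_comp, ← Preadditive.comp_add, ← Preadditive.add_comp,
          add_sub_cancel, Category.id_comp]
      have e3 : r j ≫ p j ≫ i j =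
          (r j ≫ p j ≫ i j) ≫ P + (r j ≫ p j ≫ i j) ≫ (𝟙 M - P) := by
        rw [← Preadditive.comp_add, add_sub_cancel, Category.comp_id]
      have e4 := s1 j
      rw [e3, str_add, (hx j).2, add_zero] at e4
      rw [e2, str_add, (hx j).1, add_zero, e4]
    have e5 : str R P = ((∑ j, evd R' (N j) : ℕ) : K) := by
      have e6 : str R P = str R ((∑ j, r j ≫ i j) ≫ P) := by
        symm
        apply str_congr' R hunit
        have h2 := nt_right R hunit hfull P
        rwa [Category.id_comp] at h2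
      rw [e6, Preadditive.sum_comp, str_sum, Finset.sum_congr rfl fun j _ => e1 j]
      push_cast
      rfl
    have e7 := (str_proj R hP).1
    have e8 : ∑ j, evd R' (N j) = evd R M := by
      rw [e5] at e7
      exact_mod_cast e7
    refine ⟨e8, ?_⟩
    have e9 : str R (𝟙 M) = ((∑ j, ((evd R' (N j) : ℤ) - odd R' (N j)) : ℤ) : K) := by
      have e6 : str R (𝟙 M) = str R (∑ j, r j ≫ i j) := (str_congr' R hunit hfull).symm
      rw [e6, str_sum]
      push_cast
      refine Finset.sum_congr rfl fun j _ => ?_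
      have h2 := str_piece R hunit R' (h.diag j) (𝟙 (N j))
        (t := (evd R' (N j) : ℤ) - odd R' (N j)) (by rw [str_one]; push_cast; rfl)
      rw [Category.id_comp] at h2
      rw [h2]
      push_cast
      rfl
    rw [str_one] at e9
    have e10 : (evd R M : ℤ) - odd R M = ∑ j, ((evd R' (N j) : ℤ) - odd R' (N j)) := by
      have : (((evd R M : ℤ) - odd R M : ℤ) : K) =
          ((∑ j, ((evd R' (N j) : ℤ) - odd R' (N j)) : ℤ) : K) := by
        rw [← e9]; push_cast; rfl
      exact_mod_cast this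
    rw [Finset.sum_sub_distrib] at e10
    have e11 : ((∑ j, evd R' (N j) : ℕ) : ℤ) = (evd R M : ℤ) := by exact_mod_cast e8
    have e12 : ((∑ j, odd R' (N j) : ℕ) : ℤ) = (odd R M : ℤ) := by
      push_cast at e11 ⊢
      linarith
    exact_mod_cast e12

end

end Pool.Agent.Q154.NS
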